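import Mathlib

set_option autoImplicit false

open Set Filter Topology MeasureTheory Complex
open scoped NNReal ENNReal

namespace Pool.Agent.V11330.Raj

/-- simultaneous Dirichlet approximation -/
lemma dirichlet (T : Finset ℝ) (Q : ℕ) (hQ : 0 < Q) (α : ℝ) :
    ∃ k : ℕ, 1 ≤ k ∧ k ≤ Q ^ T.card ∧ ∀ τ ∈ T, ∃ m : ℤ, |(k : ℝ) * α * τ - m| ≤ 1 / Q := by
  classical
  have hQ0 : (0 : ℝ) < Q := by exact_mod_cast hQ
  set f : Fin (Q ^ T.card + 1) → (T → Fin Q) := fun k τ =>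
    ⟨⌊(Q : ℝ) * Int.fract ((k : ℝ) * α * (τ : ℝ))⌋₊, by
      rw [Nat.floor_lt (mul_nonneg hQ0.le (Int.fract_nonneg _))]
      have := Int.fract_lt_one ((k : ℝ) * α * (τ : ℝ))
      nlinarith⟩ with hf
  obtain ⟨a, b, hab, hfab⟩ : ∃ a b : Fin (Q ^ T.card + 1), a ≠ b ∧ f a = f b := by
    have hcard : Fintype.card (T → Fin Q) < Fintype.card (Fin (Q ^ T.card + 1)) := by
      rw [Fintype.card_fun, Fintype.card_fin, Fintype.card_fin, Fintype.card_coe]
      exact Nat.lt_succ_self _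
    exact Fintype.exists_ne_map_eq_of_card_lt f hcard
  wlog hlt : a < b generalizing a b
  · exact this b a hab.symm hfab.symm (lt_of_le_of_ne (not_lt.1 hlt) hab.symm)
  have hlt' : (a : ℕ) < b := hlt
  refine ⟨b - a, by omega, by have := b.2; omega, fun τ hτ => ?_⟩
  refine ⟨⌊(b : ℝ) * α * τ⌋ - ⌊(a : ℝ) * α * τ⌋, ?_⟩
  have h1 : ⌊(Q : ℝ) * Int.fract ((a : ℝ) * α * τ)⌋₊ = ⌊(Q : ℝ) * Int.fract ((b : ℝ) * α * τ)⌋₊ := by
    have := congrFun hfab ⟨τ, hτ⟩
    simp only [hf, Fin.mk.injEq] at this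
    exact this
  have ha1 := Nat.floor_le (mul_nonneg hQ0.le (Int.fract_nonneg ((a : ℝ) * α * τ)))
  have ha2 := Nat.lt_floor_add_one ((Q : ℝ) * Int.fract ((a : ℝ) * α * τ))
  have hb1 := Nat.floor_le (mul_nonneg hQ0.le (Int.fract_nonneg ((b : ℝ) * α * τ)))
  have hb2 := Nat.lt_floor_add_one ((Q : ℝ) * Int.fract ((b : ℝ) * α * τ))
  rw [h1] at ha1 ha2
  have h2 : |(Q : ℝ) * (Int.fract ((b : ℝ) * α * τ) - Int.fract ((a : ℝ) * α * τ))| ≤ 1 := by
    rw [mul_sub, abs_le]; constructor <;> linarith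
  rw [abs_mul, abs_of_pos hQ0] at h2
  have h3 : ((b - a : ℕ) : ℝ) * α * τ - ((⌊(b : ℝ) * α * τ⌋ - ⌊(a : ℝ) * α * τ⌋ : ℤ) : ℝ) =
      Int.fract ((b : ℝ) * α * τ) - Int.fract ((a : ℝ) * α * τ) := by
    rw [Nat.cast_sub hlt'.le]
    push_cast
    unfold Int.fract
    ring
  rw [h3, le_div_iff₀ hQ0, mul_comm]
  exact h2

/-- the additive character -/
noncomputable def e (x : ℝ) : ℂ := Complex.exp (2 * Real.pi * I * x)

lemma e_add (x y : ℝ) : e (x + y) = e x * e y := by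
  unfold e; rw [← Complex.exp_add]; push_cast; ring_nf

lemma e_int (m : ℤ) : e m = 1 := by
  unfold e
  rw [Complex.exp_eq_one_iff]
  exact ⟨m, by push_cast; ring⟩

lemma norm_e (x : ℝ) : ‖e x‖ = 1 := by
  unfold e
  have : (2 * Real.pi * I * x : ℂ) = ((2 * Real.pi * x : ℝ) : ℂ) * I := by push_cast; ring
  rw [this, Complex.norm_exp_ofReal_mul_I]

lemma re_e (x : ℝ) : (e x).re = Real.cos (2 * Real.pi * x) := by
  unfold e
  have : (2 * Real.pi * I * x : ℂ) = ((2 * Real.pi * x : ℝ) : ℂ) * I := by push_cast; ring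
  rw [this, Complex.exp_ofReal_mul_I_re]

lemma conj_e (x : ℝ) : (starRingEnd ℂ) (e x) = e (-x) := by
  unfold e
  rw [← Complex.exp_conj]
  congr 1
  simp only [map_mul, Complex.conj_ofReal, Complex.conj_I, Complex.ofReal_neg, map_ofNat]
  ring

lemma continuous_e : Continuous e := by unfold e; fun_prop

/-- the trigonometric sum -/
noncomputable def S (H : ℕ) (x : ℝ) : ℂ := ∑ h ∈ Finset.range H, e (h * x)

lemma continuous_S (H : ℕ) : Continuous (S H) := by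
  unfold S
  exact continuous_finsetSum _ fun h _ => continuous_e.comp (by fun_prop)

lemma S_ge {H : ℕ} (hH : 0 < H) {x : ℝ} {m : ℤ} (hx : |x - m| ≤ 1 / (8 * H)) :
    (H : ℝ) / 2 ≤ ‖S H x‖ := by
  have hH0 : (0 : ℝ) < H := by exact_mod_cast hH
  refine le_trans ?_ (Complex.re_le_norm _)
  unfold S
  rw [Complex.re_sum]
  have h1 : ∀ h ∈ Finset.range H, (1 / 2 : ℝ) ≤ (e (h * x)).re := by
    intro h hh
    have hh' : (h : ℝ) ≤ H := by exact_mod_cast (Finset.mem_range.1 hh).le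
    have e1 : e (h * x) = e (h * (x - m)) := by
      have : (h * x : ℝ) = h * (x - m) + ((h * m : ℤ) : ℝ) := by push_cast; ring
      rw [this, e_add, e_int, mul_one]
    rw [e1, re_e]
    have h2 : |2 * Real.pi * (h * (x - m))| ≤ Real.pi / 4 := by
      rw [abs_mul, abs_mul (h : ℝ), abs_of_nonneg (by positivity : (0 : ℝ) ≤ 2 * Real.pi),
        abs_of_nonneg (Nat.cast_nonneg h)]
      have h3 : (h : ℝ) * |x - m| ≤ 1 / 8 := by
        calc (h : ℝ) * |x - m| ≤ H * (1 / (8 * H)) := by gcongr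
          _ = 1 / 8 := by field_simp
      nlinarith [Real.pi_pos]
    have h4 := Real.one_sub_sq_div_two_le_cos (x := 2 * Real.pi * (h * (x - m)))
    have h5 : (2 * Real.pi * (h * (x - m))) ^ 2 ≤ (Real.pi / 4) ^ 2 := sq_le_sq' (by
      rw [abs_le] at h2; exact h2.1) (by rw [abs_le] at h2; exact h2.2)
    have h6 : Real.pi < 3.15 := Real.pi_lt_d2
    nlinarith [Real.pi_pos]
  calc (H : ℝ) / 2 = ∑ _h ∈ Finset.range H, (1 / 2 : ℝ) := by
        rw [Finset.sum_const, Finset.card_range, nsmul_eq_mul]; ring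
    _ ≤ ∑ h ∈ Finset.range H, (e (h * x)).re := Finset.sum_le_sum h1

lemma S_sq (H : ℕ) (x : ℝ) : ((‖S H x‖ ^ 2 : ℝ) : ℂ) =
    ∑ h ∈ Finset.range H, ∑ h' ∈ Finset.range H, e (((h : ℝ) - h') * x) := by
  rw [← Complex.normSq_eq_norm_sq, ← Complex.mul_conj]
  unfold S
  rw [map_sum, Finset.sum_mul_sum]
  refine Finset.sum_congr rfl fun h _ => Finset.sum_congr rfl fun h' _ => ?_
  rw [conj_e, ← e_add]
  congr 1; ring

/-- second moment of the trigonometric sum -/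
lemma integral_S_sq_le {ν : Measure ℝ} [IsFiniteMeasure ν] {η M₀ M : ℝ} (hη : 0 ≤ η)
    (hM0 : 0 < M₀)
    (hν : ∀ u : ℝ, M₀ ≤ |u| → ‖∫ x, e (u * x) ∂ν‖ ≤ η) (hM : M₀ ≤ M) (H : ℕ) :
    ∫ x, ‖S H (M * x)‖ ^ 2 ∂ν ≤ H * ν.real univ + H ^ 2 * η := by
  have hint : ∀ u : ℝ, Integrable (fun x => e (u * x)) ν := by
    intro u
    refine (integrable_const (1 : ℝ)).mono' ?_ ?_
    · exact (continuous_e.comp (by fun_prop)).aestronglyMeasurable
    · exact Eventually.of_forall fun x => (norm_e _).le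
  have h1 : ((∫ x, ‖S H (M * x)‖ ^ 2 ∂ν : ℝ) : ℂ) =
      ∑ h ∈ Finset.range H, ∑ h' ∈ Finset.range H, ∫ x, e (((h : ℝ) - h') * M * x) ∂ν := by
    rw [← integral_complex_ofReal]
    have : ∀ x, ((‖S H (M * x)‖ ^ 2 : ℝ) : ℂ) =
        ∑ h ∈ Finset.range H, ∑ h' ∈ Finset.range H, e (((h : ℝ) - h') * M * x) := by
      intro x
      rw [S_sq]
      refine Finset.sum_congr rfl fun h _ => Finset.sum_congr rfl fun h' _ => ?_
      congr 1; ring
    simp_rw [this]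
    rw [integral_finsetSum _ fun h _ => integrable_finsetSum _ fun h' _ => hint _]
    refine Finset.sum_congr rfl fun h _ => ?_
    rw [integral_finsetSum _ fun h' _ => hint _]
  have h2 : ∀ h ∈ Finset.range H, ∀ h' ∈ Finset.range H,
      ‖∫ x, e (((h : ℝ) - h') * M * x) ∂ν‖ ≤ (if h = h' then ν.real univ else 0) + η := by
    intro h _ h' _
    split_ifs with heq
    · subst heq
      refine (norm_integral_le_integral_norm _).trans ?_
      simp only [norm_e, integral_const, smul_eq_mul, mul_one]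
      linarith
    · rw [zero_add]
      apply hν
      rw [abs_mul]
      have h3 : (1 : ℝ) ≤ |(h : ℝ) - h'| := by
        have : (1 : ℤ) ≤ |(h : ℤ) - h'| := Int.one_le_abs (sub_ne_zero.2 (by exact_mod_cast heq))
        exact_mod_cast this
      have h4 : M₀ ≤ |M| := hM.trans (le_abs_self M)
      nlinarith [abs_nonneg ((h : ℝ) - h'), abs_nonneg M]
  have h3 : ∫ x, ‖S H (M * x)‖ ^ 2 ∂ν ≤
      ∑ h ∈ Finset.range H, ∑ h' ∈ Finset.range H, ((if h = h' then ν.real univ else 0) + η) := by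
    have h4 : ∫ x, ‖S H (M * x)‖ ^ 2 ∂ν = ‖((∫ x, ‖S H (M * x)‖ ^ 2 ∂ν : ℝ) : ℂ)‖ := by
      rw [Complex.norm_real, Real.norm_of_nonneg]
      exact integral_nonneg fun x => by positivity
    rw [h4, h1]
    refine (norm_sum_le _ _).trans (Finset.sum_le_sum fun h hh => ?_)
    exact (norm_sum_le _ _).trans (Finset.sum_le_sum fun h' hh' => h2 h hh h' hh')
  refine h3.trans (le_of_eq ?_)
  simp only [Finset.sum_add_distrib, Finset.sum_const, Finset.card_range, nsmul_eq_mul,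
    Finset.sum_ite_eq, Finset.mem_range]
  have h5 : ∑ x ∈ Finset.range H, (if x < H then ν.real univ else 0) = H * ν.real univ := by
    rw [Finset.sum_congr rfl fun x hx => if_pos (Finset.mem_range.1 hx), Finset.sum_const,
      Finset.card_range, nsmul_eq_mul]
  rw [h5]; ring

/-- **Rajchman measures give small mass to tiny neighbourhoods of small finite sets.** -/
theorem fourier_small {ν : Measure ℝ} [IsFiniteMeasure ν]
    (hν : Tendsto (fun u : ℝ => ∫ x, e (u * x) ∂ν) (cocompact ℝ) (𝓝 0))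
    {T : ℕ → Finset ℝ} {N : ℕ → ℕ} {ε : ℕ → ℝ} (hT : ∀ k, (T k).card ≤ N k)
    (hε : ∀ C : ℕ, Tendsto (fun k => (C : ℝ) ^ (N k) * ε k) atTop (𝓝 0)) :
    Tendsto (fun k => ν.real {x | ∃ τ ∈ T k, |x - τ| ≤ ε k}) atTop (𝓝 0) := by
  rw [Metric.tendsto_atTop']
  intro δ hδ
  -- parameters
  obtain ⟨H, hH⟩ := exists_nat_gt (8 * ν.real univ / δ + 1)
  have hν0 : 0 ≤ ν.real univ := measureReal_nonneg
  have hH0 : (0 : ℝ) < H := lt_trans (by positivity) hH
  have hHn : 0 < H := by exact_mod_cast hH0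
  have hH1 : 4 * ν.real univ / H < δ / 2 := by
    have h1 : 8 * ν.real univ / δ < H := by linarith
    rw [div_lt_iff₀ hδ] at h1
    rw [div_lt_iff₀ hH0]; nlinarith
  have hη : (0 : ℝ) < δ / 16 := by positivity
  obtain ⟨M₀, hM0, hM0'⟩ : ∃ M₀ : ℝ, 0 < M₀ ∧
      ∀ u : ℝ, M₀ ≤ |u| → ‖∫ x, e (u * x) ∂ν‖ ≤ δ / 16 := by
    have h1 := hν.eventually (Metric.ball_mem_nhds 0 hη)
    rw [← Metric.cobounded_eq_cocompact, ← comap_norm_atTop] at h1
    obtain ⟨s, hs, hs'⟩ := h1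
    obtain ⟨A, hA⟩ := mem_atTop_sets.1 hs
    refine ⟨max A 1, by positivity, fun u hu => ?_⟩
    have h2 : u ∈ norm ⁻¹' s := hA ‖u‖ (by rw [Real.norm_eq_abs]; exact (le_max_left _ _).trans hu)
    have h3 : dist (∫ x, e (u * x) ∂ν) 0 < δ / 16 := hs' h2
    rw [dist_zero_right] at h3
    exact h3.le
  have hQ0 : 0 < 16 * H := by omega
  have hlim : Tendsto (fun k => M₀ * (((16 * H : ℕ) : ℝ) ^ (N k) * ε k)) atTop (𝓝 0) := by
    simpa using (hε (16 * H)).const_mul M₀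
  have hev : ∀ᶠ k in atTop, M₀ * (((16 * H : ℕ) : ℝ) ^ (N k) * ε k) < 1 / (16 * H) :=
    hlim.eventually (gt_mem_nhds (by positivity))
  obtain ⟨K, hK⟩ := eventually_atTop.1 hev
  refine ⟨K, fun k hk => ?_⟩
  rw [Real.dist_eq, sub_zero, abs_of_nonneg measureReal_nonneg]
  obtain ⟨j, hj1, hj2, hj3⟩ := dirichlet (T k) (16 * H) hQ0 M₀
  set M : ℝ := j * M₀ with hM
  have hj1' : (1 : ℝ) ≤ j := by exact_mod_cast hj1
  have hMM : M₀ ≤ M := by rw [hM]; nlinarith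
  have hjQ : (j : ℝ) ≤ ((16 * H : ℕ) : ℝ) ^ (N k) := by
    have h1 : j ≤ (16 * H) ^ (N k) := hj2.trans (Nat.pow_le_pow_right hQ0 (hT k))
    exact_mod_cast h1
  have hsub : {x | ∃ τ ∈ T k, |x - τ| ≤ ε k} ⊆ {x | ((H : ℝ) / 2) ^ 2 ≤ ‖S H (M * x)‖ ^ 2} := by
    rintro x ⟨τ, hτ, hx⟩
    obtain ⟨m, hm⟩ := hj3 τ hτ
    have h1 : |M * x - m| ≤ 1 / (8 * H) := by
      have h2 : M * x - m = M * (x - τ) + (j * M₀ * τ - m) := by rw [hM]; ring
      rw [h2]
      refine (abs_add_le _ _).trans ?_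
      have h3 : |M * (x - τ)| ≤ 1 / (16 * H) := by
        rw [abs_mul, abs_of_pos (lt_of_lt_of_le hM0 hMM)]
        have h4 : M * |x - τ| ≤ (((16 * H : ℕ) : ℝ) ^ (N k) * M₀) * ε k := by
          rw [hM]
          gcongr
        have h5 := (hK k hk.le).le
        calc M * |x - τ| ≤ (((16 * H : ℕ) : ℝ) ^ (N k) * M₀) * ε k := h4
          _ = M₀ * (((16 * H : ℕ) : ℝ) ^ (N k) * ε k) := by ring
          _ ≤ _ := h5
      have h6 : (1 : ℝ) / (8 * H) = 1 / (16 * H) + 1 / (16 * H) := by field_simp; ring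
      rw [h6]
      refine add_le_add h3 ?_
      push_cast at hm
      exact hm
    have h7 := S_ge hHn h1
    simp only [mem_ofPred_eq]
    gcongr
  have hint : Integrable (fun x => ‖S H (M * x)‖ ^ 2) ν := by
    refine (integrable_const ((H : ℝ) ^ 2)).mono' ?_ ?_
    · exact (((continuous_S H).comp (by fun_prop)).norm.pow 2).aestronglyMeasurable
    · refine Eventually.of_forall fun x => ?_
      rw [Real.norm_of_nonneg (by positivity)]
      have : ‖S H (M * x)‖ ≤ H := by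
        unfold S
        refine (norm_sum_le _ _).trans ?_
        simp [norm_e]
      gcongr
  have hmark := mul_meas_ge_le_integral_of_nonneg (μ := ν)
    (Eventually.of_forall fun x => by positivity : 0 ≤ᵐ[ν] fun x => ‖S H (M * x)‖ ^ 2) hint
    (((H : ℝ) / 2) ^ 2)
  have hsec := integral_S_sq_le (H := H) hη.le hM0 hM0' hMM
  have hmono : ν.real {x | ∃ τ ∈ T k, |x - τ| ≤ ε k} ≤
      ν.real {x | ((H : ℝ) / 2) ^ 2 ≤ ‖S H (M * x)‖ ^ 2} := measureReal_mono hsub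
  have h8 : ((H : ℝ) / 2) ^ 2 * ν.real {x | ((H : ℝ) / 2) ^ 2 ≤ ‖S H (M * x)‖ ^ 2} ≤
      H * ν.real univ + H ^ 2 * (δ / 16) := hmark.trans hsec
  have h9 : ν.real {x | ((H : ℝ) / 2) ^ 2 ≤ ‖S H (M * x)‖ ^ 2} ≤
      4 * ν.real univ / H + δ / 4 := by
    have h10 : (0 : ℝ) < ((H : ℝ) / 2) ^ 2 := by positivity
    rw [← mul_le_mul_iff_right₀ h10]
    refine h8.trans (le_of_eq ?_)
    field_simp
    ring
  calc ν.real {x | ∃ τ ∈ T k, |x - τ| ≤ ε k} ≤ _ := hmono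
    _ ≤ _ := h9
    _ < δ := by linarith

end Pool.Agent.V11330.Raj
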