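import Mathlib

set_option autoImplicit false

open Set Filter Topology MeasureTheory
open scoped NNReal ENNReal

namespace Pool.Agent.V11330.Raj

/-! ### the scales -/

/-- number of points at stage `k` -/
def Nn (k : ℕ) : ℕ := k * 2 ^ k + (2 ^ k + 1) ^ k

/-- the precision at stage `k` -/
noncomputable def D (k : ℕ) : ℝ := Real.exp (-3 * (Nn k : ℝ) ^ 2)

lemma Nn_lt_succ (k : ℕ) : Nn k < Nn (k + 1) := by
  unfold Nn
  have h1 : k * 2 ^ k < (k + 1) * 2 ^ (k + 1) := by
    have : 2 ^ k ≤ 2 ^ (k + 1) := Nat.pow_le_pow_right (by norm_num) (by omega)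
    have h2 : 0 < 2 ^ (k + 1) := by positivity
    nlinarith
  have h3 : (2 ^ k + 1) ^ k ≤ (2 ^ (k + 1) + 1) ^ (k + 1) := by
    have h4 : 2 ^ k + 1 ≤ 2 ^ (k + 1) + 1 := by
      have : 2 ^ k ≤ 2 ^ (k + 1) := Nat.pow_le_pow_right (by norm_num) (by omega)
      omega
    calc (2 ^ k + 1) ^ k ≤ (2 ^ (k + 1) + 1) ^ k := Nat.pow_le_pow_left h4 k
      _ ≤ (2 ^ (k + 1) + 1) ^ (k + 1) := Nat.pow_le_pow_right (by omega) (by omega)
  omega

lemma strictMono_Nn : StrictMono Nn := strictMono_nat_of_lt_succ Nn_lt_succ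

lemma le_Nn (k : ℕ) : k ≤ Nn k := strictMono_Nn.le_apply

lemma D_pos (k : ℕ) : 0 < D k := Real.exp_pos _

lemma D_strictAnti : StrictAnti D := by
  intro a b hab
  unfold D
  rw [Real.exp_lt_exp]
  have h1 : (Nn a : ℝ) < Nn b := by exact_mod_cast strictMono_Nn hab
  have h2 : (0 : ℝ) ≤ Nn a := Nat.cast_nonneg _
  nlinarith

lemma D_le_one (k : ℕ) : D k ≤ 1 := by
  unfold D
  rw [Real.exp_le_one_iff]
  have : (0 : ℝ) ≤ (Nn k : ℝ) ^ 2 := by positivity
  linarith

/-- the weights -/
noncomputable def r (k : ℕ) : ℝ := D k / 2 / 2 ^ k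

lemma r_pos (k : ℕ) : 0 < r k := by unfold r; have := D_pos k; positivity

lemma r_le (k : ℕ) : r k ≤ 1 / 2 / 2 ^ k := by
  unfold r; have := D_le_one k; gcongr

lemma summable_r : Summable r :=
  Summable.of_nonneg_of_le (fun k => (r_pos k).le) r_le (summable_geometric_two' 1)

lemma tail_r_le (K : ℕ) : ∑' k, r (k + K) ≤ D K / 2 ^ K := by
  have h1 : ∀ k, r (k + K) ≤ (D K / 2 ^ K) / 2 / 2 ^ k := by
    intro k
    unfold r
    have h2 : D (k + K) ≤ D K := D_strictAnti.antitone (by omega)
    have h3 : (D K / 2 ^ K) / 2 / 2 ^ k = D K / 2 / 2 ^ (k + K) := by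
      rw [pow_add]; field_simp
    rw [h3]
    gcongr
  have h4 : Summable fun k => r (k + K) := (summable_nat_add_iff K).2 summable_r
  calc ∑' k, r (k + K) ≤ ∑' k, (D K / 2 ^ K) / 2 / 2 ^ k :=
        Summable.tsum_le_tsum h1 h4 (summable_geometric_two' _)
    _ = D K / 2 ^ K := tsum_geometric_two' _

lemma tail_r_le' (K : ℕ) : ∑' k, r (k + K) ≤ D K := by
  refine (tail_r_le K).trans ?_
  have := D_pos K
  exact div_le_self this.le (one_le_pow₀ (by norm_num))

/-! ### coin tossing -/

/-- the fair coin -/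
noncomputable def coin : Measure Bool := (PMF.uniformOfFintype Bool).toMeasure

instance : IsProbabilityMeasure coin := by unfold coin; infer_instance

lemma coin_singleton (b : Bool) : coin {b} = 1 / 2 := by
  unfold coin
  rw [PMF.toMeasure_apply_singleton _ _ (measurableSet_singleton b)]
  simp

/-- coin tossing measure -/
noncomputable def PC : Measure (ℕ → Bool) := Measure.infinitePi fun _ => coin

instance : IsProbabilityMeasure PC := by unfold PC; infer_instance

/-- the event that the first `K` tosses are `e` -/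
def cyl (K : ℕ) (e : Fin K → Bool) : Set (ℕ → Bool) := {x | ∀ k : Fin K, x k = e k}

lemma PC_cyl (K : ℕ) (e : Fin K → Bool) : PC (cyl K e) = (1 / 2) ^ K := by
  have h1 : cyl K e = Set.pi (Finset.range K : Finset ℕ)
      (fun k => if h : k < K then {e ⟨k, h⟩} else univ) := by
    ext x
    simp only [cyl, mem_ofPred_eq, Set.mem_pi, Finset.coe_range, mem_Iio]
    constructor
    · intro h k hk
      rw [dif_pos hk]; exact h ⟨k, hk⟩
    · intro h k
      have := h k k.2
      rw [dif_pos k.2] at this
      exact this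
  rw [h1, PC, Measure.infinitePi_pi]
  · rw [Finset.prod_congr rfl (g := fun _ => (1 / 2 : ℝ≥0∞))]
    · simp
    · intro k hk
      rw [dif_pos (Finset.mem_range.1 hk), coin_singleton]
  · intro k _
    split_ifs
    · exact measurableSet_singleton _
    · exact MeasurableSet.univ

lemma measurableSet_cyl (K : ℕ) (e : Fin K → Bool) : MeasurableSet (cyl K e) := by
  have : cyl K e = ⋂ k : Fin K, {x : ℕ → Bool | x k = e k} := by
    ext x; simp [cyl]
  rw [this]
  exact MeasurableSet.iInter fun k => measurableSet_eq_fun (measurable_pi_apply _) measurable_const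

lemma disjoint_cyl (K : ℕ) {e e' : Fin K → Bool} (h : e ≠ e') : Disjoint (cyl K e) (cyl K e') := by
  rw [Set.disjoint_left]
  intro x h1 h2
  apply h
  funext k
  exact (h1 k).symm.trans (h2 k)

/-- the contribution of a toss -/
noncomputable def tm (x : ℕ → Bool) (k : ℕ) : ℝ := if x k then r k else 0

lemma tm_nonneg (x : ℕ → Bool) (k : ℕ) : 0 ≤ tm x k := by
  unfold tm; split_ifs; exacts [(r_pos k).le, le_rfl]

lemma tm_le (x : ℕ → Bool) (k : ℕ) : tm x k ≤ r k := by
  unfold tm; split_ifs; exacts [le_rfl, (r_pos k).le]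

lemma summable_tm (x : ℕ → Bool) : Summable (tm x) :=
  Summable.of_nonneg_of_le (tm_nonneg x) (tm_le x) summable_r

/-- the random sum -/
noncomputable def Sm (x : ℕ → Bool) : ℝ := ∑' k, tm x k

lemma measurable_tm (k : ℕ) : Measurable (fun x : ℕ → Bool => tm x k) := by
  unfold tm
  exact Measurable.ite (measurableSet_eq_fun (measurable_pi_apply _) measurable_const)
    measurable_const measurable_const

lemma measurable_Sm : Measurable Sm := by
  refine measurable_of_tendsto_metrizable
    (f := fun n x => ∑ k ∈ Finset.range n, tm x k) (fun n => ?_) ?_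
  · exact Finset.measurable_fun_sum _ fun k _ => measurable_tm k
  · rw [tendsto_pi_nhds]
    exact fun x => (summable_tm x).hasSum.tendsto_sum_nat

/-- the finite sum attached to a word -/
noncomputable def sw (K : ℕ) (e : Fin K → Bool) : ℝ := ∑ k : Fin K, if e k then r k else 0

lemma Sm_split (K : ℕ) (x : ℕ → Bool) :
    Sm x = sw K (fun k => x k) + ∑' k, tm x (k + K) := by
  unfold Sm sw
  rw [← (summable_tm x).sum_add_tsum_nat_add K, Finset.sum_range]
  rfl

lemma tail_bounds (K : ℕ) (x : ℕ → Bool) :
    0 ≤ ∑' k, tm x (k + K) ∧ ∑' k, tm x (k + K) ≤ D K := by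
  refine ⟨tsum_nonneg fun k => tm_nonneg x _, ?_⟩
  refine le_trans ?_ (tail_r_le' K)
  exact Summable.tsum_le_tsum (fun k => tm_le x _) ((summable_nat_add_iff K).2 (summable_tm x))
    ((summable_nat_add_iff K).2 summable_r)

/-- the random sum determines the tosses -/
lemma Sm_injective : Function.Injective Sm := by
  intro x y hxy
  by_contra hne
  have hex : ∃ k, x k ≠ y k := by
    by_contra h; push Not at h; exact hne (funext h)
  classical
  obtain ⟨k, hk, hmin⟩ : ∃ k, x k ≠ y k ∧ ∀ j < k, x j = y j :=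
    ⟨Nat.find hex, Nat.find_spec hex, fun j hj => not_not.1 (Nat.find_min hex hj)⟩
  wlog hx : x k = true generalizing x y
  · refine this hxy.symm (Ne.symm hne) ?_ hk.symm (fun j hj => (hmin j hj).symm) ?_
    · obtain ⟨k, hk⟩ := hex; exact ⟨k, hk.symm⟩
    · cases h : y k with
      | true => rfl
      | false =>
        exfalso
        rw [h] at hk
        exact hx (by simpa using hk)
  have hy : y k = false := by
    cases h : y k with
    | true => rw [hx, h] at hk; exact absurd rfl hk
    | false => rfl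
  have h1 := Sm_split (k + 1) x
  have h2 := Sm_split (k + 1) y
  have e1 : sw (k + 1) (fun j => x j) = sw (k + 1) (fun j => y j) + r k := by
    unfold sw
    rw [Fin.sum_univ_castSucc, Fin.sum_univ_castSucc]
    simp only [Fin.val_castSucc, Fin.val_last, hx, hy, if_true]
    have : ∀ j : Fin k, (if x j then r j else 0) = (if y j then r j else 0) := by
      intro j; rw [hmin j j.2]
    simp only [this]
    simp
  have b1 := (tail_bounds (k + 1) x).1
  have b2 : ∑' j, tm y (j + (k + 1)) ≤ D (k + 1) / 2 ^ (k + 1) := by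
    refine le_trans ?_ (tail_r_le (k + 1))
    exact Summable.tsum_le_tsum (fun j => tm_le y _)
      ((summable_nat_add_iff (k + 1)).2 (summable_tm y)) ((summable_nat_add_iff (k + 1)).2 summable_r)
  have b3 : D (k + 1) / 2 ^ (k + 1) < r k := by
    unfold r
    have := D_strictAnti (Nat.lt_succ_self k)
    rw [div_div, ← pow_succ']
    gcongr
  linarith

lemma PC_Sm_eq (a : ℝ) : PC {x | Sm x = a} = 0 := by
  by_cases h : ∃ x, Sm x = a
  · obtain ⟨x, hx⟩ := h
    have h1 : ∀ K : ℕ, PC {y | Sm y = a} ≤ (1 / 2) ^ K := by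
      intro K
      rw [← PC_cyl K (fun k => x k)]
      refine measure_mono fun y hy => ?_
      have : y = x := Sm_injective (hy.trans hx.symm)
      subst this
      intro k; rfl
    have hlim : Tendsto (fun n : ℕ => (1 / 2 : ℝ≥0∞) ^ n) atTop (𝓝 0) :=
      ENNReal.tendsto_pow_atTop_nhds_zero_of_lt_one (by
        rw [one_div]; exact ENNReal.one_half_lt_one)
    exact le_antisymm (ge_of_tendsto' hlim h1) bot_le
  · have : {x | Sm x = a} = ∅ := by
      ext x; simp only [mem_ofPred_eq, mem_empty_iff_false, iff_false]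
      exact fun hx => h ⟨x, hx⟩
    rw [this, measure_empty]

/-- the distribution function of the random sum -/
noncomputable def F (t : ℝ) : ℝ := PC.real {x | Sm x ≤ t}

lemma measurableSet_le' (t : ℝ) : MeasurableSet {x | Sm x ≤ t} :=
  measurableSet_le measurable_Sm measurable_const

lemma F_nonneg (t : ℝ) : 0 ≤ F t := measureReal_nonneg

lemma F_le_one (t : ℝ) : F t ≤ 1 := measureReal_le_one

lemma F_mono : Monotone F := fun _ _ hst => measureReal_mono fun _ hx => le_trans hx hst

lemma F_of_neg {t : ℝ} (ht : t < 0) : F t = 0 := by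
  unfold F
  have : {x | Sm x ≤ t} = ∅ := by
    ext x
    simp only [mem_ofPred_eq, mem_empty_iff_false, iff_false, not_le]
    exact lt_of_lt_of_le ht (tsum_nonneg fun k => tm_nonneg x k)
  rw [this, measureReal_empty]

lemma D_tendsto : Tendsto D atTop (𝓝 0) := by
  unfold D
  refine Real.tendsto_exp_atBot.comp ?_
  have h1 : Tendsto (fun k => (Nn k : ℝ)) atTop atTop :=
    tendsto_natCast_atTop_atTop.comp strictMono_Nn.tendsto_atTop
  have h2 : Tendsto (fun k => (Nn k : ℝ) ^ 2) atTop atTop :=
    (tendsto_pow_atTop (by norm_num)).comp h1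
  have h3 : Tendsto (fun k => 3 * (Nn k : ℝ) ^ 2) atTop atTop :=
    h2.const_mul_atTop (by norm_num)
  have h4 := tendsto_neg_atTop_atBot.comp h3
  refine h4.congr fun k => ?_
  simp only [Function.comp_apply]; ring

lemma F_pos {t : ℝ} (ht : 0 < t) : 0 < F t := by
  obtain ⟨K, hK⟩ := (D_tendsto.eventually (gt_mem_nhds ht)).exists
  have h1 : cyl K (fun _ => false) ⊆ {x | Sm x ≤ t} := by
    intro x hx
    rw [mem_ofPred_eq, Sm_split K x]
    have h2 : sw K (fun k => x k) = 0 := by
      unfold sw
      refine Finset.sum_eq_zero fun k _ => ?_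
      have h3 : x k = false := hx k
      simp [h3]
    rw [h2, zero_add]
    exact (tail_bounds K x).2.trans hK.le
  have h3 : (0 : ℝ) < PC.real (cyl K (fun _ => false)) := by
    rw [measureReal_def, PC_cyl]
    exact ENNReal.toReal_pos (by simp) (by simp)
  exact h3.trans_le (measureReal_mono h1)

lemma F_continuous : Continuous F := by
  rw [continuous_iff_continuousAt]
  intro t
  have hF : F = fun s => ∫ x, (if Sm x ≤ s then (1 : ℝ) else 0) ∂PC := by
    funext s
    have : (fun x => if Sm x ≤ s then (1 : ℝ) else 0) = indicator {x | Sm x ≤ s} (fun _ => 1) := by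
      funext x; simp [indicator]
    rw [this, integral_indicator (measurableSet_le' s)]
    simp [F]
  rw [hF]
  have hlim : ∀ᵐ x ∂PC, Tendsto (fun s => if Sm x ≤ s then (1 : ℝ) else 0) (𝓝 t)
      (𝓝 (if Sm x ≤ t then (1 : ℝ) else 0)) := by
    have h0 : ∀ᵐ x ∂PC, Sm x ≠ t := by
      rw [ae_iff]; simpa using PC_Sm_eq t
    filter_upwards [h0] with x hx
    rcases lt_or_gt_of_ne hx with h | h
    · rw [if_pos h.le]
      refine tendsto_const_nhds.congr' ?_
      filter_upwards [lt_mem_nhds h] with s hs
      rw [if_pos hs.le]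
    · rw [if_neg (not_le.2 h)]
      refine tendsto_const_nhds.congr' ?_
      filter_upwards [gt_mem_nhds h] with s hs
      rw [if_neg (not_le.2 hs)]
  refine tendsto_integral_filter_of_dominated_convergence (fun _ => 1) ?_ ?_
    (integrable_const _) hlim
  · refine Eventually.of_forall fun s => ?_
    exact (Measurable.ite (measurableSet_le' s) measurable_const
      measurable_const).aestronglyMeasurable
  · refine Eventually.of_forall fun s => Eventually.of_forall fun x => ?_
    split_ifs <;> simp

/-- off the stage-`K` intervals `F` takes values in the multiples of `2^{-K}` -/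
lemma F_dyadic (K : ℕ) {t : ℝ} (ht : ∀ e : Fin K → Bool, ¬ (sw K e ≤ t ∧ t ≤ sw K e + D K)) :
    ∃ i : Fin (2 ^ K + 1), F t = (i : ℝ) / 2 ^ K := by
  classical
  set A : Finset (Fin K → Bool) := Finset.univ.filter fun e => sw K e ≤ t with hA
  have h1 : {x | Sm x ≤ t} = ⋃ e ∈ A, cyl K e := by
    ext x
    simp only [mem_ofPred_eq, mem_iUnion, exists_prop, hA, Finset.mem_filter, Finset.mem_univ,
      true_and]
    constructor
    · intro hx
      refine ⟨fun k => x k, ?_, fun k => rfl⟩
      have := Sm_split K x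
      have := (tail_bounds K x).1
      linarith
    · rintro ⟨e, he, hxe⟩
      have h2 : (fun k : Fin K => x k) = e := funext hxe
      have h3 := Sm_split K x
      rw [h2] at h3
      have h4 := (tail_bounds K x).2
      have h5 := ht e
      rw [not_and, not_le] at h5
      have := h5 he
      linarith
  have h2 : PC {x | Sm x ≤ t} = (A.card : ℝ≥0∞) * (1 / 2) ^ K := by
    rw [h1, measure_biUnion_finset]
    · rw [Finset.sum_congr rfl fun e _ => PC_cyl K e, Finset.sum_const, nsmul_eq_mul]
    · intro e _ e' _ hne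
      exact disjoint_cyl K hne
    · intro e _
      exact measurableSet_cyl K e
  have hcard : A.card ≤ 2 ^ K := by
    refine (Finset.card_le_univ _).trans ?_
    simp
  refine ⟨⟨A.card, Nat.lt_succ_of_le hcard⟩, ?_⟩
  unfold F
  rw [measureReal_def, h2]
  simp [div_eq_mul_inv]

/-! ### the function `V` -/

/-- a dense sequence -/
noncomputable def q (j : ℕ) : ℝ := TopologicalSpace.denseSeq ℝ j

/-- the function `V` -/
noncomputable def V (t : ℝ) : ℝ := ∑' j, r j * F (t - q j)

lemma term_nonneg (t : ℝ) (j : ℕ) : 0 ≤ r j * F (t - q j) := mul_nonneg (r_pos j).le (F_nonneg _)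

lemma term_le (t : ℝ) (j : ℕ) : r j * F (t - q j) ≤ r j :=
  mul_le_of_le_one_right (r_pos j).le (F_le_one _)

lemma summable_V (t : ℝ) : Summable fun j => r j * F (t - q j) :=
  Summable.of_nonneg_of_le (term_nonneg t) (term_le t) summable_r

lemma V_nonneg (t : ℝ) : 0 ≤ V t := tsum_nonneg (term_nonneg t)

lemma V_continuous : Continuous V := by
  unfold V
  refine continuous_tsum (u := r) (fun j => ?_) summable_r fun j t => ?_
  · exact continuous_const.mul (F_continuous.comp (by fun_prop))
  · rw [Real.norm_of_nonneg (term_nonneg t j)]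
    exact term_le t j

lemma V_strictMono : StrictMono V := by
  intro s t hst
  obtain ⟨j, hj⟩ : ∃ j, q j ∈ Ioo s t :=
    (TopologicalSpace.denseRange_denseSeq ℝ).exists_mem_open isOpen_Ioo (nonempty_Ioo.2 hst)
  unfold V
  refine Summable.tsum_lt_tsum (i := j) (fun i => ?_) ?_ (summable_V s) (summable_V t)
  · exact mul_le_mul_of_nonneg_left (F_mono (by linarith)) (r_pos i).le
  · rw [F_of_neg (by linarith [hj.1]), mul_zero]
    exact mul_pos (r_pos j) (F_pos (by linarith [hj.2]))

open Classical in
/-- the time set at stage `K` -/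
noncomputable def TK (K : ℕ) : Finset ℝ :=
  (Finset.univ : Finset (Fin K × (Fin K → Bool))).image fun p => q p.1 + sw K p.2

open Classical in
/-- the value set at stage `K` -/
noncomputable def AK (K : ℕ) : Finset ℝ :=
  (Finset.univ : Finset (Fin K → Fin (2 ^ K + 1))).image
    fun i => ∑ j : Fin K, r j * ((i j : ℝ) / 2 ^ K)

lemma card_TK (K : ℕ) : (TK K).card ≤ Nn K := by
  unfold TK
  refine Finset.card_image_le.trans ?_
  rw [Finset.card_univ, Fintype.card_prod, Fintype.card_fin, Fintype.card_fun, Fintype.card_fin,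
    Fintype.card_bool]
  unfold Nn
  omega

lemma card_AK (K : ℕ) : (AK K).card ≤ Nn K := by
  unfold AK
  refine Finset.card_image_le.trans ?_
  rw [Finset.card_univ, Fintype.card_fun, Fintype.card_fin, Fintype.card_fin]
  unfold Nn
  omega

lemma AK_nonneg {K : ℕ} {a : ℝ} (ha : a ∈ AK K) : 0 ≤ a := by
  unfold AK at ha
  obtain ⟨i, _, rfl⟩ := Finset.mem_image.1 ha
  exact Finset.sum_nonneg fun j _ => mul_nonneg (r_pos _).le (by positivity)

/-- **The covering property.** -/
theorem cover (K : ℕ) (t : ℝ) :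
    (∃ τ ∈ TK K, |t - τ| ≤ D K) ∨ ∃ a ∈ AK K, a ≤ V t ∧ V t ≤ a + D K := by
  classical
  by_cases h : ∃ τ ∈ TK K, |t - τ| ≤ D K
  · exact Or.inl h
  · right
    push Not at h
    have h1 : ∀ j : Fin K, ∃ i : Fin (2 ^ K + 1), F (t - q j) = (i : ℝ) / 2 ^ K := by
      intro j
      refine F_dyadic K fun e he => ?_
      have h2 := h (q j + sw K e) (Finset.mem_image.2 ⟨(j, e), Finset.mem_univ _, rfl⟩)
      rw [lt_abs] at h2
      rcases h2 with h2 | h2
      · linarith [he.2]
      · have := D_pos K
        linarith [he.1]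
    choose i hi using h1
    refine ⟨∑ j : Fin K, r j * ((i j : ℝ) / 2 ^ K), Finset.mem_image.2 ⟨i, Finset.mem_univ _, rfl⟩,
      ?_⟩
    have h3 : V t = ∑ j : Fin K, r j * ((i j : ℝ) / 2 ^ K) +
        ∑' j, r (j + K) * F (t - q (j + K)) := by
      unfold V
      rw [← (summable_V t).sum_add_tsum_nat_add K, Finset.sum_range]
      congr 1
      exact Finset.sum_congr rfl fun j _ => by rw [hi j]
    have h4 : 0 ≤ ∑' j, r (j + K) * F (t - q (j + K)) := tsum_nonneg fun j => term_nonneg t _
    have h5 : ∑' j, r (j + K) * F (t - q (j + K)) ≤ D K := by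
      refine le_trans ?_ (tail_r_le' K)
      exact Summable.tsum_le_tsum (fun j => term_le t _)
        ((summable_nat_add_iff K (f := fun j => r j * F (t - q j))).2 (summable_V t))
        ((summable_nat_add_iff K).2 summable_r)
    rw [h3]
    constructor <;> linarith

end Pool.Agent.V11330.Raj
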