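import Pool.Agent.V11330.SpanDet

open Set Filter Topology MeasureTheory ProbabilityTheory
open scoped NNReal ENNReal

namespace Pool.Agent.V11330.Span

variable {Ω : Type*} [MeasurableSpace Ω] {P : Measure Ω} {B : ℝ≥0 → Ω → ℝ}

/-- points of `[a,b]` indexed by the rationals, densely -/
noncomputable def pt (a b : ℝ≥0) (q : ℚ) : ℝ≥0 := max a (min b (Real.toNNReal q))

lemma pt_mem {a b : ℝ≥0} (hab : a ≤ b) (q : ℚ) : pt a b q ∈ Icc a b :=
  ⟨le_max_left _ _, max_le hab (min_le_left _ _)⟩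

/-- the supremum over rational points equals the value at a maximiser -/
lemma iSup_pt {g : ℝ≥0 → ℝ} (hg : Continuous g) {a b s : ℝ≥0} (hs : s ∈ Icc a b)
    (hmax : ∀ x ∈ Icc a b, g x ≤ g s) : (⨆ q : ℚ, g (pt a b q)) = g s := by
  have hab : a ≤ b := hs.1.trans hs.2
  have hbdd : BddAbove (range fun q : ℚ => g (pt a b q)) :=
    ⟨g s, by rintro _ ⟨q, rfl⟩; exact hmax _ (pt_mem hab q)⟩
  apply le_antisymm
  · exact ciSup_le fun q => hmax _ (pt_mem hab q)
  · refine le_of_forall_lt fun c hc => ?_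
    have hcont : Continuous fun x : ℝ => g (max a (min b x.toNNReal)) := by fun_prop
    have hval : g (max a (min b (s : ℝ).toNNReal)) = g s := by
      rw [Real.toNNReal_coe, min_eq_right hs.2, max_eq_right hs.1]
    have hopen : IsOpen {x : ℝ | c < g (max a (min b x.toNNReal))} :=
      isOpen_lt continuous_const hcont
    have hne : {x : ℝ | c < g (max a (min b x.toNNReal))}.Nonempty := ⟨s, by
      rw [mem_ofPred_eq, hval]; exact hc⟩
    obtain ⟨q, hq⟩ := Rat.isDenseEmbedding_coe_real.dense.exists_mem_open hopen hne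
    exact lt_of_lt_of_le hq (le_ciSup hbdd q)

/-- a null set criterion under independence -/
lemma null_of_indep {α β : Type*} [MeasurableSpace α] [MeasurableSpace β]
    [IsProbabilityMeasure P] {Z : Ω → α} {Y : Ω → β}
    (hZ : AEMeasurable Z P) (hY : AEMeasurable Y P) (hind : IndepFun Y Z P)
    {S : Set (β × α)} (hS : MeasurableSet S) (h : ∀ y, P {ω | (y, Z ω) ∈ S} = 0) :
    P {ω | (Y ω, Z ω) ∈ S} = 0 := by
  have h1 : P {ω | (Y ω, Z ω) ∈ S} = P.map (fun ω => (Y ω, Z ω)) S := by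
    rw [Measure.map_apply_of_aemeasurable (hY.prodMk hZ) hS]; rfl
  rw [h1, (indepFun_iff_map_prod_eq_prod_map_map hY hZ).1 hind]
  have := Measure.isProbabilityMeasure_map hZ (μ := P)
  have := Measure.isProbabilityMeasure_map hY (μ := P)
  rw [Measure.measure_prod_null hS]
  refine Eventually.of_forall fun y => ?_
  beta_reduce
  rw [Measure.map_apply_of_aemeasurable hZ]
  · exact h y
  · exact measurable_prodMk_left hS

lemma incr_noatom (hB : IsPreBrownianReal B P) {b c : ℝ≥0} (hbc : b < c) (x : ℝ) :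
    P {ω | B c ω - B b ω = x} = 0 := by
  have h1 := hB.hasLaw_sub c b
  have hne : nndist c.1 b.1 ≠ 0 := by
    rw [Ne, nndist_eq_zero]
    intro h
    exact hbc.ne' (NNReal.coe_injective h)
  have h2 := nullSingletonClass_gaussianReal (μ := 0) hne
  have h3 : P {ω | B c ω - B b ω = x} = (P.map (B c - B b)) {x} := by
    rw [Measure.map_apply_of_aemeasurable h1.aemeasurable (measurableSet_singleton x)]; rfl
  rw [h3, h1.map_eq]
  exact measure_singleton x

/-- the two extremal functionals almost surely do not match -/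
lemma null_match (hB : IsPreBrownianReal B P) {a b c d : ℝ≥0} (hab : a ≤ b) (hbc : b < c)
    (σ τ : ℝ) :
    P {ω | B c ω - B b ω = σ * (⨆ q : ℚ, σ * (B (pt a b q) ω - B b ω)) -
      τ * (⨆ q : ℚ, τ * (B (c + pt 0 (d - c) q) ω - B c ω))} = 0 := by
  have : IsProbabilityMeasure P := hB.isGaussianProcess.isProbabilityMeasure
  have hm : ∀ t, AEMeasurable (B t) P := hB.aemeasurable
  set X₁ : Ω → ℝ := fun ω => σ * (⨆ q : ℚ, σ * (B (pt a b q) ω - B b ω)) with hX₁
  set X₃ : Ω → ℝ := fun ω => τ * (⨆ q : ℚ, τ * (B (c + pt 0 (d - c) q) ω - B c ω)) with hX₃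
  have hm1 : AEMeasurable X₁ P :=
    (AEMeasurable.iSup fun q => ((hm _).sub (hm _)).const_mul _).const_mul _
  have hm3 : AEMeasurable X₃ P :=
    (AEMeasurable.iSup fun q => ((hm _).sub (hm _)).const_mul _).const_mul _
  have hm2 : AEMeasurable (fun ω => B c ω - B b ω) P := (hm c).sub (hm b)
  -- independence of the future after `c` from the past of `c`
  have i1 : IndepFun X₃ (fun ω => (X₁ ω, B c ω - B b ω)) P := by
    have h0 := hB.indepFun_shift c
    have hφ : Measurable (fun x : ℝ≥0 → ℝ => τ * (⨆ q : ℚ, τ * x (pt 0 (d - c) q))) :=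
      Measurable.const_mul (Measurable.iSup fun q => by fun_prop) τ
    have hψ : Measurable (fun x : Iic c → ℝ =>
        (σ * (⨆ q : ℚ, σ * (x ⟨pt a b q, (pt_mem hab q).2.trans hbc.le⟩ - x ⟨b, hbc.le⟩)),
          x ⟨c, mem_Iic.2 le_rfl⟩ - x ⟨b, hbc.le⟩)) := by
      refine Measurable.prodMk ?_ ((measurable_pi_apply _).sub (measurable_pi_apply _))
      exact Measurable.const_mul (Measurable.iSup fun q => by fun_prop) σ
    exact h0.comp hφ hψ
  have i2 : IndepFun (fun ω => B c ω - B b ω) X₁ P := by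
    have h0 := hB.indepFun_shift b
    have hφ : Measurable (fun x : ℝ≥0 → ℝ => x (c - b)) := measurable_pi_apply _
    have hψ : Measurable (fun x : Iic b → ℝ =>
        σ * (⨆ q : ℚ, σ * (x ⟨pt a b q, (pt_mem hab q).2⟩ - x ⟨b, mem_Iic.2 le_rfl⟩))) :=
      Measurable.const_mul (Measurable.iSup fun q => by fun_prop) σ
    have h1 := h0.comp hφ hψ
    have e : b + (c - b) = c := add_tsub_cancel_of_le hbc.le
    have : ((fun x : ℝ≥0 → ℝ => x (c - b)) ∘ fun ω t => B (b + t) ω - B b ω) =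
        (fun ω => B c ω - B b ω) := by
      funext ω; simp only [Function.comp_apply]; rw [e]
    rw [this] at h1
    exact h1
  have hS3 : MeasurableSet {p : ℝ × (ℝ × ℝ) | p.2.2 = p.2.1 - p.1} :=
    measurableSet_eq_fun (by fun_prop) (by fun_prop)
  refine null_of_indep (hm1.prodMk hm2) hm3 i1 hS3 fun x₃ => ?_
  have hS2 : MeasurableSet {p : ℝ × ℝ | p.2 = p.1 - x₃} :=
    measurableSet_eq_fun (by fun_prop) (by fun_prop)
  refine null_of_indep (Z := fun ω => B c ω - B b ω) (Y := X₁) hm2 hm1 i2.symm hS2 fun x₁ => ?_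
  exact incr_noatom hB hbc (x₁ - x₃)

lemma half_nonneg {v : ℝ≥0} (hv : v ≠ 0) : gaussianReal 0 v (Ici 0) = 1 / 2 := by
  have h2 := nullSingletonClass_gaussianReal (μ := 0) hv
  have hsymm : gaussianReal 0 v (Iic 0) = gaussianReal 0 v (Ici 0) := by
    have h := gaussianReal_map_neg (μ := 0) (v := v)
    rw [neg_zero] at h
    conv_rhs => rw [← h]
    rw [Measure.map_apply measurable_neg measurableSet_Ici]
    congr 1
    ext x; simp
  have hadd : gaussianReal 0 v (Iic 0) + gaussianReal 0 v (Ici 0) = 1 := by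
    have h3 : gaussianReal 0 v (Iic 0 ∪ Ici 0) + gaussianReal 0 v (Iic 0 ∩ Ici 0) =
      gaussianReal 0 v (Iic 0) + gaussianReal 0 v (Ici 0) := measure_union_add_inter _ measurableSet_Ici
    rw [Iic_union_Ici, Iic_inter_Ici, Icc_self, measure_univ, measure_singleton, add_zero] at h3
    exact h3.symm
  rw [hsymm, ← two_mul] at hadd
  rw [ENNReal.eq_div_iff (by norm_num) (by norm_num)]
  exact hadd

lemma null_mono (hB : IsPreBrownianReal B P) {a b : ℝ≥0} (hab : a < b) :
    P {ω | ∀ s t : ℝ≥0, a ≤ s → s ≤ t → t ≤ b → B s ω ≤ B t ω} = 0 := by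
  have : IsProbabilityMeasure P := hB.isGaussianProcess.isProbabilityMeasure
  have hle : ∀ n : ℕ, P {ω | ∀ s t : ℝ≥0, a ≤ s → s ≤ t → t ≤ b → B s ω ≤ B t ω} ≤
      (1 / 2 : ℝ≥0∞) ^ (n + 1) := by
    intro n
    set δ : ℝ≥0 := (b - a) / (n + 1) with hδ
    have hδ0 : 0 < δ := div_pos (tsub_pos_of_lt hab) (by positivity)
    set t : ℕ → ℝ≥0 := fun i => a + i * δ with ht
    have hmono : Monotone t := by
      intro i j hij
      simp only [ht]
      gcongr
    have hind := hB.hasIndepIncrements.nat hmono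
    have h1 := hind.measure_inter_preimage_eq_mul (Finset.range (n + 1))
      (sets := fun _ => Ici (0 : ℝ)) (fun _ _ => measurableSet_Ici)
    have hf : ∀ i, P ((fun ω => B (t (i + 1)) ω - B (t i) ω) ⁻¹' Ici 0) = 1 / 2 := by
      intro i
      have h3 := hB.hasLaw_sub (t (i + 1)) (t i)
      have hne : nndist (t (i + 1)).1 (t i).1 ≠ 0 := by
        rw [Ne, nndist_eq_zero]
        intro h
        have h4 : t (i + 1) = t i := NNReal.coe_injective h
        simp only [ht, add_right_inj] at h4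
        have h5 := mul_right_cancel₀ hδ0.ne' h4
        push_cast at h5
        have : ((i : ℝ≥0) + 1 : ℝ) = i := by exact_mod_cast congrArg NNReal.toReal h5
        linarith
      rw [← half_nonneg hne, ← h3.map_eq,
        Measure.map_apply_of_aemeasurable h3.aemeasurable measurableSet_Ici]
      rfl
    have h2 : P (⋂ i ∈ Finset.range (n + 1), (fun ω => B (t (i + 1)) ω - B (t i) ω) ⁻¹' Ici 0) =
        (1 / 2) ^ (n + 1) := by
      rw [h1, Finset.prod_congr rfl (fun i _ => hf i), Finset.prod_const, Finset.card_range]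
    rw [← h2]
    refine measure_mono fun ω hω => ?_
    simp only [mem_iInter, Finset.mem_range, mem_preimage, mem_Ici, sub_nonneg]
    intro i hi
    refine hω _ _ (by simp [ht]) (hmono (Nat.le_succ i)) ?_
    simp only [ht]
    have h6 : ((i + 1 : ℕ) : ℝ≥0) ≤ ((n + 1 : ℕ) : ℝ≥0) := by exact_mod_cast hi
    calc a + ((i + 1 : ℕ) : ℝ≥0) * δ ≤ a + ((n + 1 : ℕ) : ℝ≥0) * δ := by gcongr
      _ = a + (b - a) := by
        rw [hδ]; push_cast; rw [mul_div_cancel₀]; positivity
      _ = b := add_tsub_cancel_of_le hab.le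
  have hlim : Tendsto (fun n : ℕ => (1 / 2 : ℝ≥0∞) ^ (n + 1)) atTop (𝓝 0) := by
    have := ENNReal.tendsto_pow_atTop_nhds_zero_of_lt_one (r := 1 / 2) (by
      rw [one_div]; exact ENNReal.one_half_lt_one)
    exact (tendsto_add_atTop_iff_nat 1).2 this
  exact le_antisymm (ge_of_tendsto' hlim hle) bot_le

/-- Brownian paths are generic -/
theorem generic_ae (hB : IsBrownianReal B P) :
    ∀ᵐ ω ∂P, Generic (fun t : ℝ => B t.toNNReal ω) := by
  have hpre := hB.toIsPreBrownianReal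
  have : IsProbabilityMeasure P := hpre.isGaussianProcess.isProbabilityMeasure
  -- the end points
  have e0 : ∀ᵐ ω ∂P, B 1 ω - B 0 ω ≠ 0 := by
    rw [ae_iff]; simpa using incr_noatom hpre (zero_lt_one) 0
  -- monotonicity
  have e1 : ∀ᵐ ω ∂P, ∀ a b : ℚ, (a : ℝ).toNNReal < (b : ℝ).toNNReal →
      ¬ ∀ s t : ℝ≥0, (a : ℝ).toNNReal ≤ s → s ≤ t → t ≤ (b : ℝ).toNNReal → B s ω ≤ B t ω := by
    rw [ae_all_iff]; intro a
    rw [ae_all_iff]; intro b
    by_cases h : (a : ℝ).toNNReal < (b : ℝ).toNNReal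
    · have h1 := null_mono hpre h
      rw [ae_iff]
      refine measure_mono_null (fun ω hω => ?_) h1
      exact not_not.1 fun hno => hω fun _ => hno
    · exact Eventually.of_forall fun ω h' => absurd h' h
  have e2 : ∀ᵐ ω ∂P, ∀ a b : ℚ, (a : ℝ).toNNReal < (b : ℝ).toNNReal →
      ¬ ∀ s t : ℝ≥0, (a : ℝ).toNNReal ≤ s → s ≤ t → t ≤ (b : ℝ).toNNReal → B t ω ≤ B s ω := by
    rw [ae_all_iff]; intro a
    rw [ae_all_iff]; intro b
    by_cases h : (a : ℝ).toNNReal < (b : ℝ).toNNReal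
    · have h1 := null_mono hpre.neg h
      rw [ae_iff]
      refine measure_mono_null (fun ω hω => ?_) h1
      have h2 := not_not.1 fun hno => hω fun _ => hno
      intro s t hs hst ht
      have := h2 s t hs hst ht
      simpa using this
    · exact Eventually.of_forall fun ω h' => absurd h' h
  -- matching extrema
  have e3 : ∀ σ τ : ℝ, ∀ᵐ ω ∂P, ∀ a b c d : ℚ, (a : ℝ).toNNReal ≤ (b : ℝ).toNNReal →
      (b : ℝ).toNNReal < (c : ℝ).toNNReal →
      B (c : ℝ).toNNReal ω - B (b : ℝ).toNNReal ω ≠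
      σ * (⨆ q : ℚ, σ * (B (pt (a : ℝ).toNNReal (b : ℝ).toNNReal q) ω - B (b : ℝ).toNNReal ω)) -
      τ * (⨆ q : ℚ, τ * (B ((c : ℝ).toNNReal + pt 0 ((min d 1 : ℝ).toNNReal - (c : ℝ).toNNReal) q) ω
        - B (c : ℝ).toNNReal ω)) := by
    intro σ τ
    rw [ae_all_iff]; intro a
    rw [ae_all_iff]; intro b
    rw [ae_all_iff]; intro c
    rw [ae_all_iff]; intro d
    by_cases h : (a : ℝ).toNNReal ≤ (b : ℝ).toNNReal
    · by_cases h' : (b : ℝ).toNNReal < (c : ℝ).toNNReal
      · have h1 := null_match hpre (d := (min d 1 : ℝ).toNNReal) h h' σ τ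
        rw [ae_iff]
        simpa [h, h'] using h1
      · exact Eventually.of_forall fun ω _ h'' => absurd h'' h'
    · exact Eventually.of_forall fun ω h' => absurd h' h
  filter_upwards [hB.cont, e0, e1, e2, e3 1 1, e3 1 (-1), e3 (-1) 1, e3 (-1) (-1)] with
    ω hc h0 h1 h2 h11 h12 h21 h22
  set f : ℝ → ℝ := fun t => B t.toNNReal ω with hf
  have hfc : Continuous f := hc.comp continuous_real_toNNReal
  have hmatch : ∀ σ τ : ℝ, (σ = 1 ∨ σ = -1) → (τ = 1 ∨ τ = -1) → ∀ a b c d : ℚ,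
      (a : ℝ).toNNReal ≤ (b : ℝ).toNNReal →
      (b : ℝ).toNNReal < (c : ℝ).toNNReal →
      B (c : ℝ).toNNReal ω - B (b : ℝ).toNNReal ω ≠
      σ * (⨆ q : ℚ, σ * (B (pt (a : ℝ).toNNReal (b : ℝ).toNNReal q) ω - B (b : ℝ).toNNReal ω)) -
      τ * (⨆ q : ℚ, τ * (B ((c : ℝ).toNNReal + pt 0 ((min d 1 : ℝ).toNNReal - (c : ℝ).toNNReal) q) ω
        - B (c : ℝ).toNNReal ω)) := by
    rintro σ τ (rfl | rfl) (rfl | rfl)
    · exact h11
    · exact h12
    · exact h21
    · exact h22
  have hsign : ∀ s : ℝ, IsLocalExtrOn f (Icc 0 1) s → ∃ σ : ℝ, (σ = 1 ∨ σ = -1) ∧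
      ∃ δ : ℝ, 0 < δ ∧ ∀ x ∈ Icc (0 : ℝ) 1, |x - s| < δ → σ * f x ≤ σ * f s := by
    intro s hs
    rcases hs with h | h
    · refine ⟨-1, Or.inr rfl, ?_⟩
      obtain ⟨δ, hδ, hδ'⟩ := Metric.mem_nhdsWithin_iff.1 h
      refine ⟨δ, hδ, fun x hx hxs => ?_⟩
      have : f s ≤ f x := hδ' ⟨by rw [Metric.mem_ball, Real.dist_eq]; exact hxs, hx⟩
      linarith
    · refine ⟨1, Or.inl rfl, ?_⟩
      obtain ⟨δ, hδ, hδ'⟩ := Metric.mem_nhdsWithin_iff.1 h
      refine ⟨δ, hδ, fun x hx hxs => ?_⟩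
      have : f x ≤ f s := hδ' ⟨by rw [Metric.mem_ball, Real.dist_eq]; exact hxs, hx⟩
      linarith
  refine ⟨hfc, ?_, ?_, ?_, ?_⟩
  · simp only [hf, Real.toNNReal_zero, Real.toNNReal_one]
    intro h; exact h0 (by rw [h]; ring)
  · intro s hs r hr hsr hes her hfsr
    obtain ⟨σ, hσ, δ, hδ, hmax⟩ := hsign s hes
    obtain ⟨τ, hτ, δ', hδ', hmax'⟩ := hsign r her
    have hσ2 : σ * σ = 1 := by rcases hσ with rfl | rfl <;> norm_num
    have hτ2 : τ * τ = 1 := by rcases hτ with rfl | rfl <;> norm_num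
    obtain ⟨a, ha1, ha2⟩ := exists_rat_btwn (show s - δ < s by linarith)
    obtain ⟨b, hb1, hb2⟩ := exists_rat_btwn (show s < min (s + δ) ((s + r) / 2) from
      lt_min (by linarith) (by linarith))
    obtain ⟨c, hc1, hc2⟩ := exists_rat_btwn (show max (r - δ') ((s + r) / 2) < r from
      max_lt (by linarith) (by linarith))
    obtain ⟨d, hd1, hd2⟩ := exists_rat_btwn (show r < r + δ' by linarith)
    have hb3 := hb2.trans_le (min_le_left _ _)
    have hb4 := hb2.trans_le (min_le_right _ _)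
    have hc3 := (le_max_left _ _).trans_lt hc1
    have hc4 := (le_max_right _ _).trans_lt hc1
    have hb0 : (0 : ℝ) < b := lt_of_le_of_lt hs.1 hb1
    have hc0 : (0 : ℝ) < c := by linarith
    have hbn : (((b : ℝ).toNNReal : ℝ≥0) : ℝ) = b := Real.coe_toNNReal _ hb0.le
    have hcn : (((c : ℝ).toNNReal : ℝ≥0) : ℝ) = c := Real.coe_toNNReal _ hc0.le
    refine hmatch σ τ hσ hτ a b c d (Real.toNNReal_le_toNNReal (by linarith)) ?_ ?_
    · rw [← NNReal.coe_lt_coe, hbn, hcn]; linarith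
    -- compute the suprema
    have s1 : (⨆ q : ℚ, σ * (B (pt (a : ℝ).toNNReal (b : ℝ).toNNReal q) ω -
        B (b : ℝ).toNNReal ω)) = σ * (f s - f b) := by
      have := iSup_pt (g := fun x => σ * (B x ω - B (b : ℝ).toNNReal ω)) (by fun_prop)
        (a := (a : ℝ).toNNReal) (b := (b : ℝ).toNNReal) (s := s.toNNReal)
        ⟨Real.toNNReal_le_toNNReal ha2.le, Real.toNNReal_le_toNNReal hb1.le⟩ ?_
      · exact this
      · intro x hx
        have hx1 : (x : ℝ) ≤ b := by rw [← hbn]; exact NNReal.coe_le_coe.2 hx.2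
        have hx2 : (a : ℝ) ≤ x := (Real.le_coe_toNNReal _).trans (NNReal.coe_le_coe.2 hx.1)
        have hx3 := hmax x ⟨x.2, by linarith [hr.2]⟩ (by rw [abs_lt]; constructor <;> linarith)
        simp only [hf, Real.toNNReal_coe] at hx3
        rw [mul_sub, mul_sub]
        linarith
    have s3 : (⨆ q : ℚ, τ * (B ((c : ℝ).toNNReal +
        pt 0 ((min d 1 : ℝ).toNNReal - (c : ℝ).toNNReal) q) ω - B (c : ℝ).toNNReal ω)) =
        τ * (f r - f c) := by
      have hcr : (c : ℝ).toNNReal ≤ r.toNNReal := Real.toNNReal_le_toNNReal hc2.le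
      have hrd : r.toNNReal ≤ (min d 1 : ℝ).toNNReal :=
        Real.toNNReal_le_toNNReal (le_min hd1.le hr.2)
      have hmax2 : ∀ x ∈ Icc (0 : ℝ≥0) ((min d 1 : ℝ).toNNReal - (c : ℝ).toNNReal),
          τ * (B ((c : ℝ).toNNReal + x) ω - B (c : ℝ).toNNReal ω) ≤
          τ * (B ((c : ℝ).toNNReal + (r.toNNReal - (c : ℝ).toNNReal)) ω -
            B (c : ℝ).toNNReal ω) := by
        intro x hx
        rw [add_tsub_cancel_of_le hcr]
        have hx1 : (c : ℝ).toNNReal + x ≤ (min d 1 : ℝ).toNNReal := by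
          calc (c : ℝ).toNNReal + x ≤ (c : ℝ).toNNReal +
                ((min d 1 : ℝ).toNNReal - (c : ℝ).toNNReal) := by gcongr; exact hx.2
            _ = _ := add_tsub_cancel_of_le (hcr.trans hrd)
        have hx2 : (((c : ℝ).toNNReal + x : ℝ≥0) : ℝ) ≤ min (d : ℝ) 1 := by
          have h5 := NNReal.coe_le_coe.2 hx1
          rwa [Real.coe_toNNReal _ (le_min (by linarith [hr.1]) zero_le_one)] at h5
        have hx4 : (c : ℝ) ≤ (((c : ℝ).toNNReal + x : ℝ≥0) : ℝ) := by
          push_cast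
          rw [hcn]
          linarith [x.2, show (0 : ℝ) ≤ (x : ℝ) from x.2]
        have hx3 := hmax' (((c : ℝ).toNNReal + x : ℝ≥0) : ℝ) ⟨NNReal.coe_nonneg _,
          hx2.trans (min_le_right _ _)⟩ (by
            rw [abs_lt]
            have h7 := hx2.trans (min_le_left _ _)
            constructor <;> linarith)
        simp only [hf, Real.toNNReal_coe] at hx3
        rw [mul_sub, mul_sub]
        linarith
      have := iSup_pt (g := fun x => τ * (B ((c : ℝ).toNNReal + x) ω - B (c : ℝ).toNNReal ω))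
        (by fun_prop) (a := 0) (b := (min d 1 : ℝ).toNNReal - (c : ℝ).toNNReal)
        (s := r.toNNReal - (c : ℝ).toNNReal)
        ⟨bot_le, tsub_le_tsub_right hrd _⟩ hmax2
      rw [this, add_tsub_cancel_of_le hcr]
    rw [s1, s3, ← mul_assoc, ← mul_assoc, hσ2, hτ2, one_mul, one_mul]
    have hfb : f b = B (b : ℝ).toNNReal ω := rfl
    have hfcc : f c = B (c : ℝ).toNNReal ω := rfl
    rw [← hfb, ← hfcc]
    linarith
  · intro a b ha hab hb hm
    obtain ⟨a', ha1, ha2⟩ := exists_rat_btwn hab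
    obtain ⟨b', hb1, hb2⟩ := exists_rat_btwn ha2
    have ha0 : (0 : ℝ) < a' := by linarith
    refine h1 a' b' ((Real.toNNReal_lt_toNNReal_iff (by linarith)).2 hb1) ?_
    intro s t hs hst ht
    have h3 : (a' : ℝ) ≤ s := (Real.le_coe_toNNReal _).trans (NNReal.coe_le_coe.2 hs)
    have h4 : (t : ℝ) ≤ b' := by
      have := NNReal.coe_le_coe.2 ht
      rwa [Real.coe_toNNReal _ (by linarith)] at this
    have h5 : (s : ℝ) ≤ t := NNReal.coe_le_coe.2 hst
    have := hm (show (s : ℝ) ∈ Icc a b from ⟨by linarith, by linarith⟩)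
      (show (t : ℝ) ∈ Icc a b from ⟨by linarith, by linarith⟩) h5
    simpa [hf] using this
  · intro a b ha hab hb hm
    obtain ⟨a', ha1, ha2⟩ := exists_rat_btwn hab
    obtain ⟨b', hb1, hb2⟩ := exists_rat_btwn ha2
    have ha0 : (0 : ℝ) < a' := by linarith
    refine h2 a' b' ((Real.toNNReal_lt_toNNReal_iff (by linarith)).2 hb1) ?_
    intro s t hs hst ht
    have h3 : (a' : ℝ) ≤ s := (Real.le_coe_toNNReal _).trans (NNReal.coe_le_coe.2 hs)
    have h4 : (t : ℝ) ≤ b' := by
      have := NNReal.coe_le_coe.2 ht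
      rwa [Real.coe_toNNReal _ (by linarith)] at this
    have h5 : (s : ℝ) ≤ t := NNReal.coe_le_coe.2 hst
    have := hm (show (s : ℝ) ∈ Icc a b from ⟨by linarith, by linarith⟩)
      (show (t : ℝ) ∈ Icc a b from ⟨by linarith, by linarith⟩) h5
    simpa [hf] using this

end Pool.Agent.V11330.Span
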