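import Pool.Agent.TH970.Reflect
import Mathlib

set_option autoImplicit false

open Set Filter Topology MeasureTheory ProbabilityTheory
open scoped NNReal ENNReal

namespace Pool.Agent.V11330.BMTools

open Pool.Agent.TH970

variable {Ω : Type*} [MeasurableSpace Ω] {P : Measure Ω} {X : ℝ≥0 → Ω → ℝ}

/-- every Brownian motion has a version with all paths continuous and all variables measurable -/
lemma exists_CBM (hX : IsBrownianReal X P) :
    ∃ X' : ℝ≥0 → Ω → ℝ, CBM P X' ∧ ∀ᵐ ω ∂P, ∀ t, X' t ω = X t ω := by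
  classical
  set Q : ℕ → ℝ≥0 := TopologicalSpace.denseSeq ℝ≥0 with hQ
  have h1 : ∀ᵐ ω ∂P, ∀ k, X (Q k) ω = (hX.aemeasurable (Q k)).mk (X (Q k)) ω := by
    rw [ae_all_iff]; intro k
    exact (hX.aemeasurable (Q k)).ae_eq_mk
  have h4 := h1.and (hX.cont.and hX.eval_zero_ae_eq_zero)
  obtain ⟨T, hT, hTm, hT0⟩ := exists_measurable_superset_of_null (ae_iff.mp h4)
  have hG : ∀ ω, ω ∉ T → (∀ k, X (Q k) ω = (hX.aemeasurable (Q k)).mk (X (Q k)) ω) ∧
      (Continuous fun t => X t ω) ∧ X 0 ω = 0 := by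
    intro ω hω
    by_contra hcon
    exact hω (hT hcon)
  let X' : ℝ≥0 → Ω → ℝ := fun t ω => if ω ∈ T then 0 else X t ω
  have hcont : ∀ ω, Continuous fun t => X' t ω := by
    intro ω
    by_cases hω : ω ∈ T
    · simp only [X', hω, if_true]
      exact continuous_const
    · simp only [X', hω, if_false]
      exact (hG ω hω).2.1
  have hmQ : ∀ k, Measurable (X' (Q k)) := by
    intro k
    have : X' (Q k) = fun ω => if ω ∈ T then 0
        else (hX.aemeasurable (Q k)).mk (X (Q k)) ω := by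
      funext ω
      by_cases hω : ω ∈ T
      · simp only [X', hω, if_true]
      · simp only [X', hω, if_false]
        exact (hG ω hω).1 k
    rw [this]
    exact Measurable.ite hTm measurable_const ((hX.aemeasurable (Q k)).measurable_mk)
  have hae : ∀ᵐ ω ∂P, ∀ t, X' t ω = X t ω := by
    have : ∀ᵐ ω ∂P, ω ∉ T := by
      rw [ae_iff]; simpa using hT0
    filter_upwards [this] with ω hω t
    simp only [X', hω, if_false]
  refine ⟨X', ⟨?_, hcont, ?_, ?_⟩, hae⟩
  · intro t
    have hd : DenseRange Q := TopologicalSpace.denseRange_denseSeq ℝ≥0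
    obtain ⟨x, hx, hxt⟩ := mem_closure_iff_seq_limit.mp (hd t)
    choose k hk using hx
    refine measurable_of_tendsto_metrizable (f := fun j => X' (Q (k j))) (fun j => hmQ (k j)) ?_
    rw [tendsto_pi_nhds]
    intro ω
    have := ((hcont ω).tendsto t).comp hxt
    refine this.congr fun j => ?_
    simp only [Function.comp]
    rw [hk j]
  · intro ω
    by_cases hω : ω ∈ T
    · simp only [X', hω, if_true]
    · simp only [X', hω, if_false]
      exact (hG ω hω).2.2
  · refine hX.toIsPreBrownianReal.congr fun t => ?_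
    filter_upwards [hae] with ω hω
    exact (hω t).symm

lemma CBM_neg (hX : CBM P X) : CBM P (-X) where
  meas t := (hX.meas t).neg
  cont ω := (hX.cont ω).neg
  zero ω := by show -(X 0 ω) = 0; rw [hX.zero ω, neg_zero]
  pre := hX.pre.neg

variable [IsProbabilityMeasure P]

lemma cheb (hX : IsPreBrownianReal X P) (t : ℝ≥0) {η : ℝ} (hη : 0 < η) :
    P {ω | η < X t ω} ≤ ENNReal.ofReal (t / η ^ 2) := by
  have hm : MemLp (X t) 2 P := (hX.isGaussianProcess.hasGaussianLaw_eval t).memLp_two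
  have h1 := meas_ge_le_variance_div_sq hm hη
  have h2 : Var[X t; P] = t := by
    rw [(hX.hasLaw_eval t).variance_eq, variance_id_gaussianReal]
  rw [h2, hX.integral_eval] at h1
  refine (measure_mono fun ω hω => ?_).trans h1
  rw [mem_ofPred_eq, sub_zero]
  exact (le_of_lt hω).trans (le_abs_self _)

/-- a crude maximal inequality -/
lemma osc_bound (hX : IsBrownianReal X P) {δ : ℝ≥0} (hδ : 0 < δ) {η : ℝ} (hη : 0 < η) :
    P {ω | ∃ s ≤ δ, η < |X s ω|} ≤ ENNReal.ofReal (4 * δ / η ^ 2) := by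
  obtain ⟨X', hX', hae⟩ := exists_CBM hX
  have h1 : P {ω | ∃ s ≤ δ, η < |X s ω|} ≤
      P ({ω | η < mx (path X' ω) 0 δ} ∪ {ω | η < mx (path (-X') ω) 0 δ}) := by
    refine measure_mono_ae ?_
    filter_upwards [hae] with ω hω hmem
    obtain ⟨s, hs, hsη⟩ := hmem
    rw [← hω s, lt_abs] at hsη
    rcases hsη with h | h
    · left
      exact (lt_mx_iff (hX'.cont ω)).2 ⟨s, hs, h⟩
    · right
      exact (lt_mx_iff ((CBM_neg hX').cont ω)).2 ⟨s, hs, h⟩
  refine h1.trans ((measure_union_le _ _).trans ?_)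
  have h2 := levy hX' hδ η
  have h3 := levy (CBM_neg hX') hδ η
  have h4 := cheb hX'.pre δ hη
  have h5 := cheb (CBM_neg hX').pre δ hη
  calc _ ≤ 2 * P {ω | η < X' δ ω} + 2 * P {ω | η < (-X') δ ω} := add_le_add h2 h3
    _ ≤ 2 * ENNReal.ofReal (δ / η ^ 2) + 2 * ENNReal.ofReal (δ / η ^ 2) := by gcongr
    _ = ENNReal.ofReal (4 * δ / η ^ 2) := by
      rw [← add_mul, show (2 : ℝ≥0∞) + 2 = ENNReal.ofReal 4 by norm_num,
        ← ENNReal.ofReal_mul (by norm_num)]
      congr 1; ring

end Pool.Agent.V11330.BMTools
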