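import Pool.Agent.Y286.KW.Inv
import Pool.Agent.Y319.KW.Fdd
import Pool.Agent.Y473.KW.Modp
import Pool.Agent.Y606.KW.Tight
import Pool.Agent.Y454.KW.Bmc
import Pool.Agent.Y454.KW.Clt2
import Pool.Agent.Y872.KW.Don
import Pool.Agent.Y495.KW.Modu
import Pool.Agent.Y484.KW.Qam
import Mathlib

set_option autoImplicit false

open Set Filter Topology MeasureTheory ProbabilityTheory
open scoped NNReal ENNReal

namespace Pool.Agent.V11330.Donsker

open Y994.KW

/-! ### the invariance principle of the library, without hypotheses -/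

theorem QAM : S_QAM := Pool.Agent.Y484.KW.t_QAM
theorem CLT : S_CLT := Pool.Agent.Y454.KW.t_CLT QAM
theorem FDD : S_FDD := Pool.Agent.Y319.KW.t_FDD QAM CLT
theorem MODU : S_MODU := Pool.Agent.Y495.KW.t_MODU QAM
theorem MODP : S_MODP := Pool.Agent.Y473.KW.t_MODP MODU
theorem TIGHT : S_TIGHT := Pool.Agent.Y606.KW.t_TIGHT
theorem BMC : S_BMC := Pool.Agent.Y454.KW.t_BMC
theorem DON : S_DON := Y872.KW.t_DON TIGHT BMC
theorem INV : S_INV := Y286.KW.t_INV FDD MODP DON

/-! ### uniqueness of the law of Brownian motion on the space of paths -/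

theorem chI_of_isBM {W : Measure Pa} (hW : IsBM 1 W) {k : ℕ} (t : Fin (k + 1) → unitInterval)
    (θ : Fin k → ℝ) (ht : Monotone t) : chI W t θ = chB t θ := by
  obtain ⟨hP, h0, hinc⟩ := hW
  have hm : Measurable (fun (w : Pa) (j : Fin k) => w (t j.succ) - w (t j.castSucc)) := by
    refine measurable_pi_lambda _ fun j => ?_
    refine Continuous.measurable ?_
    exact (continuous_eval_const (t j.succ)).sub (continuous_eval_const (t j.castSucc))
  have : IsProbabilityMeasure
      (W.map (fun (w : Pa) (j : Fin k) => w (t j.succ) - w (t j.castSucc))) :=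
    Measure.isProbabilityMeasure_map hm.aemeasurable
  have h1 := charFun_eq_pi_iff.2 (hinc k t ht) (WithLp.toLp 2 θ)
  have hL : Measurable (WithLp.toLp 2 : (Fin k → ℝ) → PiLp 2 (fun _ : Fin k => ℝ)) :=
    (MeasurableEquiv.toLp 2 (Fin k → ℝ)).measurable
  rw [Measure.map_map hL hm, charFun_apply, integral_map (hL.comp hm).aemeasurable] at h1
  · have h2 : ∀ w : Pa, Complex.exp ((inner ℝ ((WithLp.toLp 2 ∘ fun (w : Pa) (j : Fin k) =>
        w (t j.succ) - w (t j.castSucc)) w) (WithLp.toLp 2 θ) : ℝ) * Complex.I) =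
        Complex.exp (((∑ j : Fin k, θ j * (w (t j.succ) - w (t j.castSucc)) : ℝ) : ℂ)
          * Complex.I) := by
      intro w
      congr 3
    rw [integral_congr_ae (Filter.Eventually.of_forall h2)] at h1
    unfold chI chB
    rw [h1]
    simp_rw [charFun_gaussianReal]
    rw [← Complex.exp_sum]
    congr 1
    push_cast
    rw [← Finset.sum_neg_distrib]
    refine Finset.sum_congr rfl fun j _ => ?_
    have h3 : ((t j.castSucc : unitInterval) : ℝ) ≤ t j.succ :=
      ht (Fin.castSucc_lt_succ).le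
    have h4 : ((Real.toNNReal ((t j.succ : ℝ) - t j.castSucc) : NNReal) : ℝ)
        = (t j.succ : ℝ) - t j.castSucc := Real.coe_toNNReal _ (by linarith)
    have h5 : (((Real.toNNReal ((t j.succ : ℝ) - t j.castSucc) : NNReal) : ℝ) : ℂ)
        = (t j.succ : ℂ) - t j.castSucc := by
      rw [h4]; push_cast; rfl
    rw [h5]
    ring
  · refine Continuous.aestronglyMeasurable ?_
    fun_prop

theorem bm_unique {V W : Measure Pa} (hV : IsBM 1 V) (hW : IsBM 1 W) : V = W := by
  have := hV.1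
  have := hW.1
  refine ext_of_integral_char_eq (L := Y872.KW.Lp) Real.continuous_probChar
    Real.probChar_ne_one (fun v hv => Y872.KW.Lp_ne hv) Y872.KW.cont_Lp ?_
  intro a
  obtain ⟨k, t, θ, ht, h⟩ := Y872.KW.incr a
  have e1 := Y872.KW.chI_eq V hV.2.1 h
  have e2 := Y872.KW.chI_eq W hW.2.1 h
  rw [chI_of_isBM hV t θ ht] at e1
  rw [chI_of_isBM hW t θ ht] at e2
  exact e1.trans e2.symm

/-! ### Brownian motion as a random element of the space of paths -/

section path

variable {Ω : Type*} [MeasurableSpace Ω] {P : Measure Ω} {B : ℝ≥0 → Ω → ℝ}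

/-- a point of the unit interval as a nonnegative real -/
def nn (s : unitInterval) : ℝ≥0 := ⟨s, s.2.1⟩

lemma continuous_nn : Continuous nn := by
  unfold nn; fun_prop

open Classical in
/-- the restriction to `[0,1]` of a path -/
noncomputable def res (f : ℝ≥0 → ℝ) : Pa :=
  if h : Continuous f then ⟨fun s => f (nn s), h.comp continuous_nn⟩ else 0

lemma res_apply {f : ℝ≥0 → ℝ} (h : Continuous f) (s : unitInterval) : res f s = f (nn s) := by
  unfold res; rw [dif_pos h]; rfl

lemma aemeasurable_res (hB : IsBrownianReal B P) : AEMeasurable (fun ω => res (B · ω)) P := by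
  have hm : ∀ t, AEMeasurable (B t) P := hB.aemeasurable
  refine aemeasurable_of_tendsto_metrizable_ae (atTop : Filter ℕ)
    (f := fun n ω => ∑ k : Fin (n + 1), B (nn (bernstein.z k)) ω • bernstein n k) (fun n => ?_) ?_
  · refine Finset.aemeasurable_fun_sum _ fun k _ => ?_
    exact (hm _).smul_const _
  · filter_upwards [hB.cont] with ω hω
    have h1 := bernsteinApproximation_uniform (res (B · ω))
    refine h1.congr fun n => ?_
    unfold bernsteinApproximation
    refine Finset.sum_congr rfl fun k _ => ?_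
    ext x
    simp only [ContinuousMap.smul_apply, res_apply hω]
    show (bernstein n k x) * B (nn (bernstein.z k)) ω = B (nn (bernstein.z k)) ω * (bernstein n k x)
    ring

lemma isBM_map (hB : IsBrownianReal B P) : IsBM 1 (P.map (fun ω => res (B · ω))) := by
  have hpr : IsProbabilityMeasure P := hB.isGaussianProcess.isProbabilityMeasure
  have ham := aemeasurable_res hB
  refine ⟨Measure.isProbabilityMeasure_map ham, ?_, ?_⟩
  · rw [ae_map_iff ham]
    · filter_upwards [hB.cont, hB.eval_zero_ae_eq_zero] with ω h1 h2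
      rw [res_apply h1]
      have : nn 0 = 0 := rfl
      rw [this]; exact h2
    · exact (isClosed_eq (continuous_eval_const _) continuous_const).measurableSet
  · intro k t ht
    have hm : Measurable (fun (w : Pa) (j : Fin k) => w (t j.succ) - w (t j.castSucc)) := by
      refine measurable_pi_lambda _ fun j => ?_
      refine Continuous.measurable ?_
      exact (continuous_eval_const (t j.succ)).sub (continuous_eval_const (t j.castSucc))
    rw [AEMeasurable.map_map_of_aemeasurable hm.aemeasurable ham]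
    have hcongr : ((fun (w : Pa) (j : Fin k) => w (t j.succ) - w (t j.castSucc)) ∘
        fun ω => res (B · ω)) =ᵐ[P]
        fun ω (j : Fin k) => B (nn (t j.succ)) ω - B (nn (t j.castSucc)) ω := by
      filter_upwards [hB.cont] with ω h1
      funext j
      simp only [Function.comp_apply, res_apply h1]
    rw [Measure.map_congr hcongr]
    have hmono : Monotone (fun j => nn (t j)) := fun i j hij => ht hij
    have hind := hB.hasIndepIncrements k (fun j => nn (t j)) hmono
    have hmj : ∀ j : Fin k, AEMeasurable (fun ω => B (nn (t j.succ)) ω - B (nn (t j.castSucc)) ω) P :=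
      fun j => (hB.aemeasurable _).sub (hB.aemeasurable _)
    rw [(iIndepFun_iff_map_fun_eq_pi_map hmj).1 hind]
    congr 1
    funext j
    have h3 := hB.hasLaw_sub (nn (t j.succ)) (nn (t j.castSucc))
    have h4 : (fun ω => B (nn (t j.succ)) ω - B (nn (t j.castSucc)) ω) =
      B (nn (t j.succ)) - B (nn (t j.castSucc)) := rfl
    rw [h4, h3.map_eq, one_mul]
    congr 1
    apply NNReal.coe_injective
    have h5 : ((t j.castSucc : unitInterval) : ℝ) ≤ t j.succ := ht (Fin.castSucc_lt_succ).le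
    rw [coe_nndist, Real.dist_eq, Real.coe_toNNReal _ (by linarith)]
    show |((t j.succ : ℝ)) - (t j.castSucc : ℝ)| = _
    rw [abs_of_nonneg (by linarith)]

end path

/-! ### the simple random walk -/

section walk

/-- the step encoded by a letter -/
noncomputable def sg (b : Bool) : ℝ := if b then 1 else -1

lemma sg_sq (b : Bool) : sg b ^ 2 = 1 := by cases b <;> norm_num [sg]

lemma abs_sg (b : Bool) : |sg b| = 1 := by cases b <;> norm_num [sg]

/-- the walk encoded by a word -/
noncomputable def Yw (M : ℕ) (c : Fin M → Bool) : ℝ := ∑ i, sg (c i)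

lemma Yw_add (M M' : ℕ) (c : Fin (M + M') → Bool) :
    Yw (M + M') c = Yw M (lft M M' c) + Yw M' (rgt M M' c) := by
  unfold Yw lft rgt
  rw [Fin.sum_univ_add]

lemma Ea_one_letter (f : (Fin 1 → Bool) → ℝ) :
    Ea 1 f = (f (fun _ => true) + f (fun _ => false)) / 2 := by
  unfold Ea
  rw [← (Equiv.funUnique (Fin 1) Bool).symm.sum_comp]
  simp only [Fintype.sum_bool, Fintype.card_bool, Nat.cast_ofNat, pow_one]
  rfl

lemma Yw_one (c : Fin 1 → Bool) : Yw 1 c = sg (c 0) := by simp [Yw]

lemma mean (M : ℕ) : Ea M (Yw M) = 0 := by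
  induction M with
  | zero => simp [Ea, Yw]
  | succ M ih =>
    have h : Yw (M + 1) = fun c => Yw M (lft M 1 c) + Yw 1 (rgt M 1 c) := by
      funext c; exact Yw_add M 1 c
    rw [h, Pool.Agent.Y484.KW.Ea_add, Pool.Agent.Y484.KW.Ea_lft, Pool.Agent.Y484.KW.Ea_rgt, ih,
      Ea_one_letter]
    simp [Yw_one, sg]

lemma second (M : ℕ) : Ea M (fun c => Yw M c ^ 2) = M := by
  induction M with
  | zero => simp [Ea, Yw]
  | succ M ih =>
    have h : (fun c => Yw (M + 1) c ^ 2) = fun c => (Yw M (lft M 1 c) ^ 2 +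
        Yw 1 (rgt M 1 c) ^ 2) + 2 * (Yw M (lft M 1 c) * Yw 1 (rgt M 1 c)) := by
      funext c; rw [Yw_add M 1 c]; ring
    rw [h, Pool.Agent.Y484.KW.Ea_add, Pool.Agent.Y484.KW.Ea_add,
      Pool.Agent.Y484.KW.Ea_lft M 1 (fun c => Yw M c ^ 2),
      Pool.Agent.Y484.KW.Ea_rgt M 1 (fun c => Yw 1 c ^ 2), ih, Pool.Agent.Y484.KW.Ea_mul,
      Pool.Agent.Y484.KW.Ea_prod M 1 (Yw M) (Yw 1), mean, zero_mul, mul_zero, add_zero,
      Ea_one_letter]
    simp [Yw_one, sg_sq]

lemma abs_Yw_le (M : ℕ) (c : Fin M → Bool) : |Yw M c| ≤ M := by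
  unfold Yw
  refine (Finset.abs_sum_le_sum_abs _ _).trans ?_
  simp [abs_sg]

lemma qa : Qa Yw 2 1 1 where
  Bpos := two_pos
  mpos := le_rfl
  mean := mean
  err M M' := by
    have h : (fun c => (Yw (M + M') c - Yw M (lft M M' c) - Yw M' (rgt M M' c)) ^ 4) =
        fun _ => (0 : ℝ) := by
      funext c; rw [Yw_add M M' c]; ring
    rw [h, Pool.Agent.Y484.KW.Ea_one]; norm_num
  short M hM := by
    have h1 : Ea M (fun c => Yw M c ^ 4) ≤ Ea M (fun _ : Fin M → Bool => (2 : ℝ) ^ 4) := by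
      refine Pool.Agent.Y484.KW.Ea_le M _ _ fun c => ?_
      have h2 := abs_Yw_le M c
      have h3 : (M : ℝ) ≤ 2 := by exact_mod_cast (by simpa using hM : M ≤ 2)
      have h4 : |Yw M c| ^ 4 ≤ 2 ^ 4 := pow_le_pow_left₀ (abs_nonneg _) (h2.trans h3) 4
      rwa [Even.pow_abs (by decide)] at h4
    rwa [Pool.Agent.Y484.KW.Ea_one] at h1
  var := by
    refine tendsto_const_nhds.congr' ?_
    filter_upwards [eventually_gt_atTop 0] with M hM
    rw [second, div_self]
    exact_mod_cast hM.ne'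

lemma Yr_succ_sub (M : ℕ) (c : Fin M → Bool) (m : ℕ) : |Yr Yw c (m + 1) - Yr Yw c m| ≤ 1 := by
  have h : Yr Yw c (m + 1) = Yr Yw c m + sg (rst (m + 1) c (Fin.last m)) := by
    unfold Yr Yw
    rw [Fin.sum_univ_castSucc]
    rfl
  rw [h, add_sub_cancel_left, abs_sg]

lemma osc : Osc Yw 2 1 := by
  intro m
  refine ⟨fun _ => 1, fun c l hl => ?_, ?_⟩
  · rcases Nat.le_one_iff_eq_zero_or_eq_one.1 hl with rfl | rfl
    · simp
    · exact Yr_succ_sub _ c m
  · have h : (fun _ : Fin (m + 1) → Bool => (1 : ℝ) ^ 4) = fun _ => (1 : ℝ) := by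
      funext _; norm_num
    show Ea (m + 1) (fun _ : Fin (m + 1) → Bool => (1 : ℝ) ^ 4) ≤ 2 ^ 4
    rw [h, Pool.Agent.Y484.KW.Ea_one]; norm_num

theorem inv_walk : ∃ W : Measure Pa, IsBM 1 W ∧ ∀ F : BoundedContinuousFunction Pa ℝ,
    Tendsto (fun N : ℕ => Ea N (fun c => F (pth (1 / √N) (Yr Yw c) N))) atTop
      (𝓝 (∫ w, F w ∂W)) := by
  have hfam : Fam (1 / 4) (fun _ => Bool) (fun _ => Yw) (fun _ => 2) (fun _ => 1) (fun _ => 1)
      (fun N => N) := by
    refine ⟨fun _ => qa, fun _ => osc, fun _ => by norm_num, ?_⟩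
    simpa using tendsto_natCast_atTop_atTop (R := ℝ)
  obtain ⟨W, hW, h⟩ := INV (1 / 4) (by norm_num) _ _ _ _ _ _ hfam
  refine ⟨W, hW, fun F => ?_⟩
  have := h _ _ _ _ _ _ hfam F
  simpa using this

variable {Ω : Type*} [MeasurableSpace Ω] {P : Measure Ω} [IsProbabilityMeasure P]
  {ξ : ℕ → Ω → ℤ}

/-- the word encoding the first `N` steps -/
def code (ξ : ℕ → Ω → ℤ) (N : ℕ) (ω : Ω) : Fin N → Bool := fun i => decide (ξ i ω = 1)

lemma measurable_code (hm : ∀ i, Measurable (ξ i)) (N : ℕ) : Measurable (code ξ N) := by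
  refine measurable_pi_lambda _ fun i => ?_
  have h1 : Measurable (fun z : ℤ => decide (z = 1)) := measurable_of_countable _
  exact h1.comp (hm i)

/-- the law of the word is uniform -/
lemma code_law (hm : ∀ i, Measurable (ξ i)) (hi : iIndepFun ξ P)
    (hp : ∀ i, P {ω | ξ i ω = 1} = 1 / 2) (N : ℕ) (c : Fin N → Bool) :
    P {ω | code ξ N ω = c} = (1 / 2) ^ N := by
  have hN : iIndepFun (fun i : Fin N => ξ i) P := hi.precomp Fin.val_injective
  have h1 := hN.measure_inter_preimage_eq_mul Finset.univ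
    (sets := fun i => {z : ℤ | decide (z = 1) = c i}) (fun _ _ => trivial)
  have h2 : (⋂ i ∈ (Finset.univ : Finset (Fin N)), ξ i ⁻¹' {z : ℤ | decide (z = 1) = c i}) =
      {ω | code ξ N ω = c} := by
    ext ω
    simp only [Finset.mem_univ, iInter_true, mem_iInter, mem_preimage, mem_ofPred_eq]
    exact funext_iff.symm
  have h3 : ∀ i : Fin N, P (ξ i ⁻¹' {z : ℤ | decide (z = 1) = c i}) = 1 / 2 := by
    intro i
    cases hc : c i
    · have h4 : ξ i ⁻¹' {z : ℤ | decide (z = 1) = false} = {ω | ξ i ω = 1}ᶜ := by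
        ext ω; simp
      have hms : MeasurableSet {ω | ξ i ω = 1} := hm i (measurableSet_singleton 1)
      rw [h4, prob_compl_eq_one_sub hms, hp i]
      rw [one_div]
      exact ENNReal.one_sub_inv_two
    · have h4 : ξ i ⁻¹' {z : ℤ | decide (z = 1) = true} = {ω | ξ i ω = 1} := by
        ext ω; simp
      rw [h4, hp i]
  rw [← h2, h1, Finset.prod_congr rfl (fun i _ => h3 i), Finset.prod_const, Finset.card_univ,
    Fintype.card_fin]

/-- expectations of functions of the word -/
lemma integral_code (hm : ∀ i, Measurable (ξ i)) (hi : iIndepFun ξ P)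
    (hp : ∀ i, P {ω | ξ i ω = 1} = 1 / 2) (N : ℕ) (g : (Fin N → Bool) → ℝ) :
    ∫ ω, g (code ξ N ω) ∂P = Ea N g := by
  have hc := measurable_code hm N
  have := Measure.isProbabilityMeasure_map hc.aemeasurable (μ := P)
  rw [← integral_map hc.aemeasurable (measurable_of_countable g).aestronglyMeasurable,
    integral_fintype Integrable.of_finite]
  unfold Ea
  rw [Finset.sum_div]
  refine Finset.sum_congr rfl fun c _ => ?_
  have h1 : (P.map (code ξ N)).real {c} = (1 / 2) ^ N := by
    rw [measureReal_def, Measure.map_apply hc (measurableSet_singleton c)]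
    have h2 : code ξ N ⁻¹' {c} = {ω | code ξ N ω = c} := rfl
    rw [h2, code_law hm hi hp]
    simp
  rw [h1, smul_eq_mul, Fintype.card_bool]
  push_cast
  rw [one_div, inv_pow]
  field_simp

omit [IsProbabilityMeasure P] in
lemma walk_eq (hpm : ∀ᵐ ω ∂P, ∀ i, ξ i ω = 1 ∨ ξ i ω = -1) (N : ℕ) :
    ∀ᵐ ω ∂P, ∀ k ≤ N, ((∑ i ∈ Finset.range k, ξ i ω : ℤ) : ℝ) = Yr Yw (code ξ N ω) k := by
  filter_upwards [hpm] with ω hω k hk
  unfold Yr Yw
  push_cast
  rw [Finset.sum_range]
  refine Finset.sum_congr rfl fun i _ => ?_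
  have hi : (i : ℕ) < N := lt_of_lt_of_le i.2 hk
  have h1 : rst k (code ξ N ω) i = decide (ξ i ω = 1) := by
    unfold rst; rw [dif_pos hi]; rfl
  rw [h1]
  rcases hω i with h | h
  · rw [h]; simp [sg]
  · rw [h]; norm_num [sg]

lemma pth_congr {a : ℝ} {y y' : ℕ → ℝ} {N : ℕ} (h : ∀ k ≤ N, y k = y' k) :
    pth a y N = pth a y' N := by
  ext s
  show a * (y 0 + ∑ i ∈ Finset.range N, (y (i + 1) - y i) * max 0 (min 1 ((s : ℝ) * N - i))) =
    a * (y' 0 + ∑ i ∈ Finset.range N, (y' (i + 1) - y' i) * max 0 (min 1 ((s : ℝ) * N - i)))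
  rw [h 0 (Nat.zero_le _)]
  congr 2
  refine Finset.sum_congr rfl fun i hi => ?_
  have hi' := Finset.mem_range.1 hi
  rw [h (i + 1) hi', h i hi'.le]

lemma pm_ae (hm : ∀ i, Measurable (ξ i)) (hp : ∀ i, P {ω | ξ i ω = 1} = 1 / 2)
    (hn : ∀ i, P {ω | ξ i ω = -1} = 1 / 2) : ∀ᵐ ω ∂P, ∀ i, ξ i ω = 1 ∨ ξ i ω = -1 := by
  rw [ae_all_iff]
  intro i
  have hms1 : MeasurableSet {ω | ξ i ω = 1} := hm i (measurableSet_singleton 1)
  have hms2 : MeasurableSet {ω | ξ i ω = -1} := hm i (measurableSet_singleton (-1))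
  have h1 : P ({ω | ξ i ω = 1} ∪ {ω | ξ i ω = -1}) = 1 := by
    rw [measure_union _ hms2, hp, hn, ENNReal.add_halves]
    rw [Set.disjoint_left]
    intro ω h1 h2
    simp only [mem_ofPred_eq] at h1 h2
    rw [h1] at h2; norm_num at h2
  have h2 := (prob_compl_eq_zero_iff (hms1.union hms2)).2 h1
  exact h2

variable {Ω' : Type*} [MeasurableSpace Ω'] {P' : Measure Ω'} [IsProbabilityMeasure P']
  {B : ℝ≥0 → Ω' → ℝ}

/-- **Donsker's theorem** for the simple random walk. -/
theorem donsker (hB : IsBrownianReal B P') (hm : ∀ i, Measurable (ξ i)) (hi : iIndepFun ξ P)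
    (hp : ∀ i, P {ω | ξ i ω = 1} = 1 / 2) (hn : ∀ i, P {ω | ξ i ω = -1} = 1 / 2) :
    TendstoInDistribution
      (fun (N : ℕ) ω => pth (1 / √N) (fun k => ((∑ i ∈ Finset.range k, ξ i ω : ℤ) : ℝ)) N) atTop
      (fun ω => res (B · ω)) (fun _ => P) P' := by
  have hae := walk_eq (pm_ae hm hp hn)
  have hcongr : ∀ N : ℕ, (fun ω => pth (1 / √N) (Yr Yw (code ξ N ω)) N) =ᵐ[P]
      (fun ω => pth (1 / √N) (fun k => ((∑ i ∈ Finset.range k, ξ i ω : ℤ) : ℝ)) N) := by
    intro N
    filter_upwards [hae N] with ω hω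
    exact (pth_congr fun k hk => hω k hk).symm
  have hmeas : ∀ N : ℕ, Measurable (fun ω => pth (1 / √N) (Yr Yw (code ξ N ω)) N) := fun N =>
    (measurable_of_countable (fun c : Fin N → Bool => pth (1 / √N) (Yr Yw c) N)).comp
      (measurable_code hm N)
  have hres := aemeasurable_res hB
  refine TendstoInDistribution.congr hcongr (EventuallyEq.refl _ _) ?_
  refine ⟨fun N => (hmeas N).aemeasurable, hres, ?_⟩
  refine ProbabilityMeasure.tendsto_iff_forall_integral_tendsto.2 fun F => ?_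
  obtain ⟨W, hW, h⟩ := inv_walk
  have hWB : W = P'.map (fun ω => res (B · ω)) := bm_unique hW (isBM_map hB)
  subst hWB
  refine (h F).congr fun N => ?_
  simp only [ProbabilityMeasure.coe_mk]
  rw [integral_map (hmeas N).aemeasurable F.continuous.aestronglyMeasurable]
  exact (integral_code hm hi hp N (fun c => F (pth (1 / √N) (Yr Yw c) N))).symm

end walk

end Pool.Agent.V11330.Donsker
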