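import Mathlib

set_option autoImplicit false

open Set Filter Topology MeasureTheory
open scoped NNReal ENNReal

namespace Pool.Agent.V11330.MapThm

lemma measurableSet_continuousAt {S K : Type*} [TopologicalSpace S] [MeasurableSpace S]
    [OpensMeasurableSpace S] [MetricSpace K] (F : S → K) :
    MeasurableSet {x | ContinuousAt F x} :=
  (IsGδ.setOfPred_continuousAt F).measurableSet

lemma aemeasurable_of_ae_continuousAt {S K : Type*} [TopologicalSpace S] [MeasurableSpace S]
    [OpensMeasurableSpace S] [MetricSpace K] [MeasurableSpace K] [BorelSpace K]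
    {μ : Measure S} {F : S → K} (h : ∀ᵐ x ∂μ, ContinuousAt F x) : AEMeasurable F μ := by
  have hm := measurableSet_continuousAt F
  have hc : ContinuousOn F {x | ContinuousAt F x} := fun x hx => ContinuousAt.continuousWithinAt hx
  have h1 := hc.aemeasurable (μ := μ) hm
  have h2 : ∀ᵐ x ∂μ, x ∈ {x | ContinuousAt F x} := h
  rwa [Measure.restrict_eq_self_of_ae_mem h2] at h1

variable {Ω : ℕ → Type*} [∀ n, MeasurableSpace (Ω n)] {P : (n : ℕ) → Measure (Ω n)}
  [∀ n, IsProbabilityMeasure (P n)] {Ω' : Type*} [MeasurableSpace Ω'] {P' : Measure Ω'}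
  [IsProbabilityMeasure P']
  {S : Type*} [TopologicalSpace S] [MeasurableSpace S] [BorelSpace S] [HasOuterApproxClosed S]
  {K : Type*} [MetricSpace K] [MeasurableSpace K] [BorelSpace K]

/-- **Mapping theorem** for almost everywhere continuous maps, with a small perturbation. -/
theorem tendstoInDistribution_map {Ψ : (n : ℕ) → Ω n → S} {Ψ' : Ω' → S}
    (h : TendstoInDistribution Ψ atTop Ψ' P P') {F : S → K}
    (hF : ∀ᵐ ω ∂P', ContinuousAt F (Ψ' ω)) {X : (n : ℕ) → Ω n → K}
    (hX : ∀ n, AEMeasurable (X n) (P n)) {r : ℕ → ℝ} (hr : Tendsto r atTop (𝓝 0))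
    (hd : ∀ᶠ n in atTop, ∀ᵐ ω ∂P n, dist (X n ω) (F (Ψ n ω)) ≤ r n) :
    TendstoInDistribution X atTop (fun ω => F (Ψ' ω)) P P' := by
  have hΨ' := h.aemeasurable_limit
  have hcont : ∀ᵐ x ∂(P'.map Ψ'), ContinuousAt F x := by
    rw [ae_map_iff hΨ' (measurableSet_continuousAt F)]; exact hF
  have hFm : AEMeasurable F (P'.map Ψ') := aemeasurable_of_ae_continuousAt hcont
  have hFΨ : AEMeasurable (fun ω => F (Ψ' ω)) P' := hFm.comp_aemeasurable hΨ'
  refine ⟨hX, hFΨ, ?_⟩
  refine tendsto_of_forall_isOpen_le_liminf' fun G hG => ?_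
  show (P'.map (fun ω => F (Ψ' ω))) G ≤ liminf (fun n => ((P n).map (X n)) G) atTop
  rw [Measure.map_apply_of_aemeasurable hFΨ hG.measurableSet]
  set ε : ℕ → ℝ≥0∞ := fun j => ENNReal.ofReal (1 / ((j : ℝ) + 1)) with hε
  set Gj : ℕ → Set K := fun j => {x | ε j < Metric.infEDist x Gᶜ} with hGj
  have hGjo : ∀ j, IsOpen (Gj j) := fun j =>
    isOpen_lt continuous_const Metric.continuous_infEDist
  have hmono : Monotone Gj := by
    intro i j hij x hx
    have hx' : ε i < Metric.infEDist x Gᶜ := hx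
    show ε j < Metric.infEDist x Gᶜ
    refine lt_of_le_of_lt ?_ hx'
    refine ENNReal.ofReal_le_ofReal ?_
    apply one_div_le_one_div_of_le (by positivity)
    have : (i : ℝ) ≤ j := by exact_mod_cast hij
    linarith
  have hlim0 : Tendsto (fun j : ℕ => 1 / ((j : ℝ) + 1)) atTop (𝓝 0) :=
    tendsto_one_div_add_atTop_nhds_zero_nat
  have hun : (⋃ j, Gj j) = G := by
    ext x
    constructor
    · intro hx
      obtain ⟨j, hj⟩ := mem_iUnion.1 hx
      by_contra hxG
      have h0 : Metric.infEDist x Gᶜ = 0 := Metric.infEDist_zero_of_mem hxG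
      simp only [hGj, mem_ofPred_eq, h0] at hj
      exact not_lt_bot hj
    · intro hx
      have hpos : 0 < Metric.infEDist x Gᶜ := by
        rw [pos_iff_ne_zero]
        intro h0
        have := (Metric.mem_iff_infEDist_zero_of_closed hG.isClosed_compl).2 h0
        exact this hx
      have h1 : Tendsto ε atTop (𝓝 0) := by
        have := ENNReal.tendsto_ofReal hlim0
        rw [ENNReal.ofReal_zero] at this
        exact this
      obtain ⟨j, hj⟩ := (h1.eventually (gt_mem_nhds hpos)).exists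
      exact mem_iUnion.2 ⟨j, hj⟩
  have hsup : P' ((fun ω => F (Ψ' ω)) ⁻¹' G) = ⨆ j, P' ((fun ω => F (Ψ' ω)) ⁻¹' Gj j) := by
    conv_lhs => rw [← hun, preimage_iUnion]
    refine Monotone.measure_iUnion ?_
    intro a b hab
    exact preimage_mono (hmono hab)
  rw [hsup]
  refine iSup_le fun j => ?_
  have h1 : P' ((fun ω => F (Ψ' ω)) ⁻¹' Gj j) ≤ (P'.map Ψ') (interior (F ⁻¹' Gj j)) := by
    rw [Measure.map_apply_of_aemeasurable hΨ' isOpen_interior.measurableSet]
    refine measure_mono_ae ?_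
    filter_upwards [hF] with ω hω hmem
    have : F ⁻¹' Gj j ∈ 𝓝 (Ψ' ω) := hω ((hGjo j).mem_nhds hmem)
    exact mem_interior_iff_mem_nhds.2 this
  refine h1.trans ?_
  have h2 := ProbabilityMeasure.le_liminf_measure_open_of_tendsto h.tendsto
    (isOpen_interior (s := F ⁻¹' Gj j))
  refine h2.trans ?_
  refine liminf_le_liminf ?_
  have hj0 : (0 : ℝ) < 1 / ((j : ℝ) + 1) := by positivity
  filter_upwards [hd, hr.eventually (gt_mem_nhds hj0)] with n hn1 hn2
  show ((P n).map (Ψ n)) _ ≤ ((P n).map (X n)) G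
  rw [Measure.map_apply_of_aemeasurable (h.forall_aemeasurable n) isOpen_interior.measurableSet,
    Measure.map_apply_of_aemeasurable (hX n) hG.measurableSet]
  refine measure_mono_ae ?_
  filter_upwards [hn1] with ω hω hmem
  have hm0 : Ψ n ω ∈ F ⁻¹' Gj j := interior_subset (show Ψ n ω ∈ interior (F ⁻¹' Gj j) from hmem)
  have hm : ε j < Metric.infEDist (F (Ψ n ω)) Gᶜ := hm0
  by_contra hxG
  have h3 : Metric.infEDist (F (Ψ n ω)) Gᶜ ≤ edist (F (Ψ n ω)) (X n ω) :=
    Metric.infEDist_le_edist_of_mem hxG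
  have h4 : edist (F (Ψ n ω)) (X n ω) ≤ ε j := by
    rw [edist_comm, edist_dist]
    exact ENNReal.ofReal_le_ofReal (hω.trans hn2.le)
  exact absurd (hm.trans_le (h3.trans h4)) (lt_irrefl _)

end Pool.Agent.V11330.MapThm
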