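import Pool.Agent.V11330.BMGeneric
import Pool.Agent.V11330.Donsker
import Pool.Agent.V11330.MapThm

set_option autoImplicit false

open Set Filter Topology MeasureTheory ProbabilityTheory TopologicalSpace
open scoped NNReal ENNReal

namespace Pool.Agent.V11330.SpanLim

open Y994.KW Pool.Agent.V11330.Span

/-- extension of a path by its end values -/
noncomputable def ext (w : Pa) : ℝ → ℝ := IccExtend zero_le_one w

lemma continuous_ext (w : Pa) : Continuous (ext w) := w.continuous.Icc_extend'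

lemma ext_coe (w : Pa) (s : unitInterval) : ext w s = w s := IccExtend_val _ _ _

lemma zero_mem_SpR (f : ℝ → ℝ) : (0 : ℝ) ∈ SpR f := ⟨0, 0, le_rfl, le_rfl, zero_le_one, rfl, by simp⟩

/-- the span set of a path, as a nonempty compact subset of the unit interval -/
noncomputable def spK (w : Pa) : NonemptyCompacts unitInterval :=
  ⟨⟨{u : unitInterval | (u : ℝ) ∈ SpR (ext w)},
    ((isCompact_SpR (continuous_ext w)).isClosed.preimage continuous_subtype_val).isCompact⟩,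
    ⟨0, by simpa using zero_mem_SpR (ext w)⟩⟩

lemma mem_spK {w : Pa} {u : unitInterval} : u ∈ (spK w : Set unitInterval) ↔
    ∃ s t : unitInterval, s ≤ t ∧ w s = w t ∧ (u : ℝ) = t - s := by
  constructor
  · rintro ⟨s, t, h0, h1, h2, h3, h4⟩
    refine ⟨⟨s, h0, h1.trans h2⟩, ⟨t, h0.trans h1, h2⟩, h1, ?_, h4⟩
    rw [← ext_coe, ← ext_coe]; exact h3
  · rintro ⟨s, t, h1, h3, h4⟩
    refine ⟨s, t, s.2.1, h1, t.2.2, ?_, h4⟩
    rw [ext_coe, ext_coe]; exact h3

lemma continuous_gD_path (v θ : ℝ) : Continuous (fun w : Pa => gD (ext w) v θ) := by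
  unfold gD ext IccExtend
  simp only [Function.comp_apply]
  exact (continuous_eval_const _).sub (continuous_eval_const _)

/-- the span set depends continuously on the path, at generic paths -/
theorem continuousAt_spK {w : Pa} (hw : Generic (ext w)) : ContinuousAt spK w := by
  rw [ContinuousAt, (NonemptyCompacts.isTopologicalBasis.nhds_hasBasis).tendsto_right_iff]
  rintro _ ⟨⟨u, ⟨huf, hune, huo⟩, rfl⟩, hsub, hmeet⟩
  have hVo : IsOpen (⋃₀ u) := isOpen_sUnion huo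
  have e1 : ∀ᶠ w' in 𝓝 w, (spK w' : Set unitInterval) ⊆ ⋃₀ u := by
    set C : Set (unitInterval × unitInterval) :=
      {p | p.1 ≤ p.2 ∧ projIcc (0 : ℝ) 1 zero_le_one (p.2 - p.1) ∉ ⋃₀ u} with hC
    have hCc : IsCompact C := by
      apply IsClosed.isCompact
      refine (isClosed_le continuous_fst continuous_snd).inter ?_
      refine IsClosed.preimage (t := (⋃₀ u)ᶜ)
        (f := fun p : unitInterval × unitInterval => projIcc (0 : ℝ) 1 zero_le_one (p.2 - p.1))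
        ?_ hVo.isClosed_compl
      exact continuous_projIcc.comp (by fun_prop)
    have hP : ∀ p ∈ C, ∀ᶠ z : Pa × (unitInterval × unitInterval) in 𝓝 (w, p),
        z.1 z.2.1 ≠ z.1 z.2.2 := by
      intro p hp
      have hopen : IsOpen {z : Pa × (unitInterval × unitInterval) | z.1 z.2.1 ≠ z.1 z.2.2} := by
        refine isOpen_ne_fun ?_ ?_ <;> fun_prop
      refine hopen.mem_nhds ?_
      intro heq
      have h1 : ((p.2 : ℝ) - p.1) ∈ Icc (0 : ℝ) 1 := by
        refine ⟨sub_nonneg.2 hp.1, ?_⟩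
        have := p.2.2.2
        have := p.1.2.1
        linarith
      apply hp.2
      apply hsub
      rw [mem_spK]
      exact ⟨p.1, p.2, hp.1, heq, by rw [projIcc_of_mem _ h1]⟩
    have := hCc.eventually_forall_of_forall_eventually
      (P := fun (w' : Pa) (p : unitInterval × unitInterval) => w' p.1 ≠ w' p.2) hP
    filter_upwards [this] with w' hw'
    intro v hv
    obtain ⟨s, t, hst, hval, hvt⟩ := mem_spK.1 hv
    by_contra hvu
    refine hw' (s, t) ⟨hst, ?_⟩ hval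
    have h2 : projIcc (0 : ℝ) 1 zero_le_one ((t : ℝ) - s) = v := by
      rw [← hvt]; exact projIcc_val _ _
    rw [h2]; exact hvu
  have e2 : ∀ᶠ w' in 𝓝 w, ∀ U ∈ u, ((spK w' : Set unitInterval) ∩ U).Nonempty := by
    rw [eventually_all_finite huf]
    intro U hU
    obtain ⟨v, hv, hvU⟩ := hmeet U hU
    obtain ⟨U', hU'o, hU'⟩ := isOpen_induced_iff.1 (huo U hU)
    have hv1 : (v : ℝ) ∈ closure (SC (ext w)) := hw.subset_closure hv
    have hv2 : (v : ℝ) ∈ U' := by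
      have : v ∈ Subtype.val ⁻¹' U' := by rw [hU']; exact hvU
      exact this
    obtain ⟨z, hz1, hz2⟩ := mem_closure_iff.1 hv1 U' hU'o hv2
    obtain ⟨hz0, hz01, ⟨θ, hθ, hθ'⟩, ⟨η, hη, hη'⟩⟩ := hz2
    have f1 : ∀ᶠ w' in 𝓝 w, gD (ext w') z θ < 0 :=
      (continuous_gD_path z θ).continuousAt.eventually (gt_mem_nhds hθ')
    have f2 : ∀ᶠ w' in 𝓝 w, 0 < gD (ext w') z η :=
      (continuous_gD_path z η).continuousAt.eventually (lt_mem_nhds hη')
    filter_upwards [f1, f2] with w' h1 h2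
    have h3 : z ∈ SpR (ext w') :=
      SC_subset (continuous_ext w') ⟨hz0, hz01, ⟨θ, hθ, h1⟩, ⟨η, hη, h2⟩⟩
    refine ⟨⟨z, hz0.le, hz01.le⟩, h3, ?_⟩
    rw [← hU']; exact hz1
  filter_upwards [e1, e2] with w' h1 h2
  exact ⟨h1, h2⟩

lemma Generic.congr {f g : ℝ → ℝ} (hf : Generic f) (hg : Continuous g)
    (h : ∀ x ∈ Icc (0 : ℝ) 1, f x = g x) : Generic g where
  cont := hg
  ends := by rw [← h 0 (by simp), ← h 1 (by simp)]; exact hf.ends
  extr := by
    have key : ∀ s ∈ Icc (0 : ℝ) 1, IsLocalExtrOn g (Icc 0 1) s → IsLocalExtrOn f (Icc 0 1) s := by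
      intro s hs hl
      rcases hl with hl | hl
      · left
        filter_upwards [hl, self_mem_nhdsWithin] with x hx hx2
        rw [h s hs, h x hx2]; exact hx
      · right
        filter_upwards [hl, self_mem_nhdsWithin] with x hx hx2
        rw [h s hs, h x hx2]; exact hx
    intro s hs r hr hsr h1 h2
    rw [← h s hs, ← h r hr]
    exact hf.extr s hs r hr hsr (key s hs h1) (key r hr h2)
  mono a b ha hab hb hm := hf.mono a b ha hab hb (by
    intro x hx y hy hxy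
    rw [h x ⟨ha.trans hx.1, hx.2.trans hb⟩, h y ⟨ha.trans hy.1, hy.2.trans hb⟩]
    exact hm hx hy hxy)
  anti a b ha hab hb hm := hf.anti a b ha hab hb (by
    intro x hx y hy hxy
    rw [h x ⟨ha.trans hx.1, hx.2.trans hb⟩, h y ⟨ha.trans hy.1, hy.2.trans hb⟩]
    exact hm hx hy hxy)

theorem ae_continuousAt {Ω : Type*} [MeasurableSpace Ω] {P : Measure Ω} {B : ℝ≥0 → Ω → ℝ}
    (hB : IsBrownianReal B P) : ∀ᵐ ω ∂P, ContinuousAt spK (Donsker.res (B · ω)) := by
  filter_upwards [generic_ae hB, hB.cont] with ω h1 h2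
  apply continuousAt_spK
  refine Generic.congr h1 (continuous_ext _) ?_
  intro x hx
  have : ext (Donsker.res (B · ω)) ((⟨x, hx⟩ : unitInterval) : ℝ) = _ := ext_coe _ ⟨x, hx⟩
  simp only at this
  rw [this, Donsker.res_apply h2]
  congr 1
  apply NNReal.coe_injective
  rw [Real.coe_toNNReal _ hx.1]; rfl

/-! ### walks -/

/-- the normalised spans of a walk in `N` steps -/
def wspan (N : ℕ) (z : ℕ → ℤ) : Set unitInterval :=
  {u | ∃ l k : ℕ, l ≤ k ∧ k ≤ N ∧ z k = z l ∧ (u : ℝ) = ((k : ℝ) - l) / N}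

lemma finite_wspan (N : ℕ) (z : ℕ → ℤ) : (wspan N z).Finite := by
  have h : (Subtype.val '' wspan N z).Finite := by
    refine Set.Finite.subset (Set.Finite.image (fun p : ℕ × ℕ => ((p.2 : ℝ) - p.1) / N)
      ((Set.finite_Iic N).prod (Set.finite_Iic N))) ?_
    rintro _ ⟨u, ⟨l, k, h1, h2, h3, h4⟩, rfl⟩
    exact ⟨(l, k), ⟨h1.trans h2, h2⟩, h4.symm⟩
  exact h.of_finite_image Subtype.val_injective.injOn

lemma zero_mem_wspan (N : ℕ) (z : ℕ → ℤ) : (0 : unitInterval) ∈ wspan N z :=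
  ⟨0, 0, le_rfl, Nat.zero_le _, rfl, by simp⟩

/-- the normalised spans of a walk in `N` steps, as a nonempty compact set -/
def wspanK (N : ℕ) (z : ℕ → ℤ) : NonemptyCompacts unitInterval :=
  ⟨⟨wspan N z, (finite_wspan N z).isCompact⟩, ⟨0, zero_mem_wspan N z⟩⟩

open Pool.Agent.Y473.KW in
/-- rounding a point of the polygon to a node -/
lemma round_node {z : ℕ → ℤ} (hz : ∀ k, z (k + 1) - z k = 1 ∨ z (k + 1) - z k = -1) {N : ℕ}
    {x : ℝ} (hx0 : 0 ≤ x) (hxN : x < N) :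
    ∃ j : ℕ, (j = ⌊x⌋₊ ∨ j = ⌊x⌋₊ + 1) ∧ z j = ⌊S (fun k => (z k : ℝ)) N x⌋ := by
  have h1 : ((⌊x⌋₊ : ℕ) : ℝ) ≤ x := Nat.floor_le hx0
  have h2 : x < (⌊x⌋₊ : ℕ) + 1 := Nat.lt_floor_add_one x
  have h3 : ⌊x⌋₊ + 1 ≤ N := by
    have : ((⌊x⌋₊ : ℕ) : ℝ) < N := lt_of_le_of_lt h1 hxN
    exact_mod_cast this
  have hS := S_of_lt (fun k => (z k : ℝ)) x ⌊x⌋₊ h1 h2 N h3
  set l := ⌊x⌋₊ with hl
  rcases hz l with h | h
  · refine ⟨l, Or.inl rfl, ?_⟩
    have h' : (z (l + 1) : ℝ) - z l = 1 := by exact_mod_cast h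
    rw [hS]; simp only [h', mul_one]
    symm
    rw [Int.floor_eq_iff]
    constructor <;> linarith
  · have h' : (z (l + 1) : ℝ) - z l = -1 := by exact_mod_cast h
    rcases h1.eq_or_lt with h4 | h4
    · refine ⟨l, Or.inl rfl, ?_⟩
      rw [hS]; simp only [← h4, sub_self, zero_mul, add_zero, Int.floor_intCast]
    · refine ⟨l + 1, Or.inr rfl, ?_⟩
      rw [hS]; simp only [h']
      symm
      rw [Int.floor_eq_iff]
      have h5 : (z (l + 1) : ℝ) = z l - 1 := by linarith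
      rw [h5]
      constructor <;> linarith

open Pool.Agent.Y473.KW in
lemma same_cell {z : ℕ → ℤ} (hz : ∀ k, z (k + 1) - z k = 1 ∨ z (k + 1) - z k = -1) {N : ℕ}
    {x y : ℝ} (hx0 : 0 ≤ x) (hxy : x ≤ y) (hyN : y < N) (hf : ⌊x⌋₊ = ⌊y⌋₊)
    (hS : S (fun k => (z k : ℝ)) N x = S (fun k => (z k : ℝ)) N y) : x = y := by
  have hy0 := hx0.trans hxy
  have h1 : ((⌊x⌋₊ : ℕ) : ℝ) ≤ x := Nat.floor_le hx0
  have h2 : x < (⌊x⌋₊ : ℕ) + 1 := Nat.lt_floor_add_one x
  have h1' : ((⌊y⌋₊ : ℕ) : ℝ) ≤ y := Nat.floor_le hy0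
  have h2' : y < (⌊y⌋₊ : ℕ) + 1 := Nat.lt_floor_add_one y
  have h3 : ⌊x⌋₊ + 1 ≤ N := by
    have : ((⌊x⌋₊ : ℕ) : ℝ) < N := lt_of_le_of_lt h1 (lt_of_le_of_lt hxy hyN)
    exact_mod_cast this
  rw [S_of_lt (fun k => (z k : ℝ)) x ⌊x⌋₊ h1 h2 N h3,
    S_of_lt (fun k => (z k : ℝ)) y ⌊y⌋₊ h1' h2' N (by rw [← hf]; exact h3), ← hf] at hS
  rcases hz ⌊x⌋₊ with h | h
  · have h' : (z (⌊x⌋₊ + 1) : ℝ) - z ⌊x⌋₊ = 1 := by exact_mod_cast h
    simp only [h'] at hS; linarith
  · have h' : (z (⌊x⌋₊ + 1) : ℝ) - z ⌊x⌋₊ = -1 := by exact_mod_cast h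
    simp only [h'] at hS; linarith

open Pool.Agent.Y473.KW in
lemma dist_wspanK_le {z : ℕ → ℤ} (hz : ∀ k, z (k + 1) - z k = 1 ∨ z (k + 1) - z k = -1) {N : ℕ}
    (hN : 1 ≤ N) : dist (wspanK N z) (spK (pth (1 / √N) (fun k => (z k : ℝ)) N)) ≤ 2 / N := by
  have hN0 : (0 : ℝ) < N := by exact_mod_cast hN
  have ha : (0 : ℝ) < 1 / √N := by positivity
  rw [Metric.NonemptyCompacts.dist_eq]
  refine Metric.hausdorffDist_le_of_mem_dist (by positivity) ?_ ?_
  · rintro u ⟨l, k, h1, h2, h3, h4⟩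
    refine ⟨u, ?_, by rw [dist_self]; positivity⟩
    rw [mem_spK]
    have hk1 : (k : ℝ) / N ≤ 1 := (div_le_one hN0).2 (by exact_mod_cast h2)
    have hlk : (l : ℝ) / N ≤ (k : ℝ) / N := by
      apply div_le_div_of_nonneg_right _ hN0.le
      exact_mod_cast h1
    refine ⟨⟨(l : ℝ) / N, by positivity, hlk.trans hk1⟩, ⟨(k : ℝ) / N, by positivity, hk1⟩, hlk, ?_, ?_⟩
    · rw [Y286.KW.pth_node _ _ N l (h1.trans h2) hN _ rfl, Y286.KW.pth_node _ _ N k h2 hN _ rfl, h3]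
    · rw [h4, sub_div]
  · intro u hu
    obtain ⟨s, t, hst, hval, hut⟩ := mem_spK.1 hu
    rw [pth_eq, pth_eq] at hval
    have hS := mul_left_cancel₀ ha.ne' hval
    set x : ℝ := (s : ℝ) * N with hx
    set y : ℝ := (t : ℝ) * N with hy
    have hx0 : 0 ≤ x := mul_nonneg s.2.1 hN0.le
    have hxy : x ≤ y := mul_le_mul_of_nonneg_right hst hN0.le
    have hyN : y ≤ N := by
      have := mul_le_mul_of_nonneg_right t.2.2 hN0.le
      rwa [one_mul] at this
    have huxy : (u : ℝ) = (y - x) / N := by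
      rw [hut, hx, hy]; field_simp
    -- find matching nodes
    obtain ⟨l, k, hlk, hkN, hzz, habs⟩ : ∃ l k : ℕ, l ≤ k ∧ k ≤ N ∧ z k = z l ∧
        |((k : ℝ) - l) - (y - x)| ≤ 2 := by
      rcases hyN.eq_or_lt with hy1 | hy1
      · -- y = N
        rcases (hxy.trans hyN).eq_or_lt with hx1 | hx1
        · refine ⟨0, 0, le_rfl, Nat.zero_le _, rfl, ?_⟩
          rw [hx1, hy1]; simp
        · obtain ⟨j, hj, hzj⟩ := round_node hz hx0 hx1
          have h1 : ((⌊x⌋₊ : ℕ) : ℝ) ≤ x := Nat.floor_le hx0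
          have h2 : x < (⌊x⌋₊ : ℕ) + 1 := Nat.lt_floor_add_one x
          have h3 : ⌊x⌋₊ + 1 ≤ N := by
            have : ((⌊x⌋₊ : ℕ) : ℝ) < N := lt_of_le_of_lt h1 hx1
            exact_mod_cast this
          refine ⟨j, N, by rcases hj with rfl | rfl <;> omega, le_rfl, ?_, ?_⟩
          · rw [hzj, hS, hy1, S_of_le (fun k => (z k : ℝ)) (N : ℝ) N le_rfl, Int.floor_intCast]
          · rw [hy1, abs_le]
            rcases hj with rfl | rfl
            · constructor <;> linarith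
            · push_cast; constructor <;> linarith
      · have hx1 : x < N := lt_of_le_of_lt hxy hy1
        have hy0 := hx0.trans hxy
        by_cases hf : ⌊x⌋₊ = ⌊y⌋₊
        · have hxy' := same_cell hz hx0 hxy hy1 hf hS
          refine ⟨0, 0, le_rfl, Nat.zero_le _, rfl, ?_⟩
          rw [hxy']; simp
        · have hlt : ⌊x⌋₊ < ⌊y⌋₊ := lt_of_le_of_ne (Nat.floor_mono hxy) hf
          obtain ⟨j, hj, hzj⟩ := round_node hz hx0 hx1
          obtain ⟨i, hi, hzi⟩ := round_node hz hy0 hy1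
          have h1 : ((⌊x⌋₊ : ℕ) : ℝ) ≤ x := Nat.floor_le hx0
          have h2 : x < (⌊x⌋₊ : ℕ) + 1 := Nat.lt_floor_add_one x
          have h1' : ((⌊y⌋₊ : ℕ) : ℝ) ≤ y := Nat.floor_le hy0
          have h2' : y < (⌊y⌋₊ : ℕ) + 1 := Nat.lt_floor_add_one y
          have h3 : ⌊y⌋₊ + 1 ≤ N := by
            have : ((⌊y⌋₊ : ℕ) : ℝ) < N := lt_of_le_of_lt h1' hy1
            exact_mod_cast this
          refine ⟨j, i, by rcases hj with rfl | rfl <;> rcases hi with rfl | rfl <;> omega,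
            by rcases hi with rfl | rfl <;> omega, by rw [hzj, hzi, hS], ?_⟩
          rw [abs_le]
          rcases hj with rfl | rfl <;> rcases hi with rfl | rfl <;> push_cast <;>
            constructor <;> linarith
    have hk1 : (k : ℝ) / N ≤ 1 := (div_le_one hN0).2 (by exact_mod_cast hkN)
    have hlk' : (l : ℝ) ≤ k := by exact_mod_cast hlk
    have hmem : ((k : ℝ) - l) / N ∈ Icc (0 : ℝ) 1 := by
      refine ⟨div_nonneg (by linarith) hN0.le, ?_⟩
      rw [sub_div]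
      have : (0 : ℝ) ≤ (l : ℝ) / N := by positivity
      linarith
    refine ⟨⟨((k : ℝ) - l) / N, hmem⟩, ⟨l, k, hlk, hkN, hzz, rfl⟩, ?_⟩
    rw [Subtype.dist_eq, Real.dist_eq, huxy]
    simp only
    rw [← sub_div, abs_div, abs_of_pos hN0, abs_sub_comm]
    exact div_le_div_of_nonneg_right habs hN0.le

end Pool.Agent.V11330.SpanLim
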