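import Mathlib

open Set Filter Topology

namespace Pool.Agent.V11330.Span

/-- spans of `f` on `[0,1]` -/
def SpR (f : ℝ → ℝ) : Set ℝ := {u | ∃ s t : ℝ, 0 ≤ s ∧ s ≤ t ∧ t ≤ 1 ∧ f s = f t ∧ u = t - s}

/-- increments over length `u`, parametrised by `θ ∈ [0,1]` -/
def gD (f : ℝ → ℝ) (u θ : ℝ) : ℝ := f (θ * (1 - u) + u) - f (θ * (1 - u))

/-- lengths for which the increments change sign strictly -/
def SC (f : ℝ → ℝ) : Set ℝ :=
  {u | 0 < u ∧ u < 1 ∧ (∃ θ ∈ Icc (0 : ℝ) 1, gD f u θ < 0) ∧ ∃ θ ∈ Icc (0 : ℝ) 1, 0 < gD f u θ}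

lemma continuous_gD {f : ℝ → ℝ} (hf : Continuous f) : Continuous (fun p : ℝ × ℝ => gD f p.1 p.2) := by
  unfold gD; fun_prop

lemma continuous_gD_left {f : ℝ → ℝ} (hf : Continuous f) (θ : ℝ) :
    Continuous (fun u => gD f u θ) := by
  unfold gD; fun_prop

lemma continuous_gD_right {f : ℝ → ℝ} (hf : Continuous f) (u : ℝ) :
    Continuous (fun θ => gD f u θ) := by
  unfold gD; fun_prop

lemma isOpen_SC {f : ℝ → ℝ} (hf : Continuous f) : IsOpen (SC f) := by
  have : SC f = (Ioo 0 1) ∩ ((⋃ θ ∈ Icc (0 : ℝ) 1, {u | gD f u θ < 0}) ∩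
      (⋃ θ ∈ Icc (0 : ℝ) 1, {u | 0 < gD f u θ})) := by
    ext u
    simp only [SC, mem_ofPred_eq, mem_inter_iff, mem_Ioo, mem_iUnion, exists_prop]
    tauto
  rw [this]
  refine isOpen_Ioo.inter (IsOpen.inter ?_ ?_)
  · exact isOpen_biUnion fun θ _ => isOpen_lt (continuous_gD_left hf θ) continuous_const
  · exact isOpen_biUnion fun θ _ => isOpen_lt continuous_const (continuous_gD_left hf θ)

lemma SC_subset {f : ℝ → ℝ} (hf : Continuous f) : SC f ⊆ SpR f := by
  rintro u ⟨h0, h1, ⟨θ, hθ, hθ'⟩, η, hη, hη'⟩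
  have : (0 : ℝ) ∈ gD f u '' Icc 0 1 :=
    (isPreconnected_Icc.intermediate_value hθ hη (continuous_gD_right hf u).continuousOn)
      ⟨hθ'.le, hη'.le⟩
  obtain ⟨ζ, hζ, hζ'⟩ := this
  refine ⟨ζ * (1 - u), ζ * (1 - u) + u, ?_, ?_, ?_, ?_, ?_⟩
  · exact mul_nonneg hζ.1 (by linarith)
  · linarith
  · have := mul_le_mul_of_nonneg_right hζ.2 (show (0 : ℝ) ≤ 1 - u by linarith)
    linarith
  · unfold gD at hζ'; linarith
  · ring

lemma isCompact_SpR {f : ℝ → ℝ} (hf : Continuous f) : IsCompact (SpR f) := by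
  have : SpR f = (fun p : ℝ × ℝ => p.2 - p.1) ''
      ((Icc (0 : ℝ) 1 ×ˢ Icc (0 : ℝ) 1) ∩ {p | p.1 ≤ p.2 ∧ f p.1 = f p.2}) := by
    ext u
    constructor
    · rintro ⟨s, t, h1, h2, h3, h4, h5⟩
      exact ⟨(s, t), ⟨⟨⟨h1, h2.trans h3⟩, ⟨h1.trans h2, h3⟩⟩, h2, h4⟩, h5.symm⟩
    · rintro ⟨⟨s, t⟩, ⟨⟨⟨h1, _⟩, ⟨_, h3⟩⟩, h2, h4⟩, h5⟩
      exact ⟨s, t, h1, h2, h3, h4, h5.symm⟩
  rw [this]
  refine IsCompact.image ?_ (by fun_prop)
  refine (isCompact_Icc.prod isCompact_Icc).inter_right ?_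
  exact (isClosed_le continuous_fst continuous_snd).inter
    (isClosed_eq (hf.comp continuous_fst) (hf.comp continuous_snd))

/-- the three generic properties of a path used below -/
structure Generic (f : ℝ → ℝ) : Prop where
  cont : Continuous f
  ends : f 0 ≠ f 1
  extr : ∀ s ∈ Icc (0 : ℝ) 1, ∀ r ∈ Icc (0 : ℝ) 1, s < r → IsLocalExtrOn f (Icc 0 1) s →
    IsLocalExtrOn f (Icc 0 1) r → f s ≠ f r
  mono : ∀ a b : ℝ, 0 ≤ a → a < b → b ≤ 1 → ¬ MonotoneOn f (Icc a b)
  anti : ∀ a b : ℝ, 0 ≤ a → a < b → b ≤ 1 → ¬ AntitoneOn f (Icc a b)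

lemma Generic.neg {f : ℝ → ℝ} (h : Generic f) : Generic (fun x => -f x) where
  cont := h.cont.neg
  ends := by simpa using h.ends
  extr := by
    intro s hs r hr hsr h1 h2 h3
    refine h.extr s hs r hr hsr ?_ ?_ (neg_injective h3)
    · simpa using h1.neg
    · simpa using h2.neg
  mono a b ha hab hb hm := h.anti a b ha hab hb (by
    intro x hx y hy hxy
    have := hm hx hy hxy
    simpa using this)
  anti a b ha hab hb hm := h.mono a b ha hab hb (by
    intro x hx y hy hxy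
    have := hm hx hy hxy
    simpa using this)

/-- no period -/
lemma Generic.no_period {f : ℝ → ℝ} (h : Generic f) {u : ℝ} (hu0 : 0 < u) (hu1 : u < 1)
    (hp : ∀ t, 0 ≤ t → t ≤ 1 - u → f (t + u) = f t) : False := by
  have hL : (0 : ℝ) < 1 - u := by linarith
  have hninj : ¬ InjOn f (Icc 0 (1 - u)) := by
    intro hinj
    rcases ContinuousOn.strictMonoOn_of_injOn_Icc' hL.le h.cont.continuousOn hinj with h1 | h1
    · exact h.mono 0 (1 - u) le_rfl hL (by linarith) h1.monotoneOn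
    · exact h.anti 0 (1 - u) le_rfl hL (by linarith) h1.antitoneOn
  obtain ⟨x, hx, y, hy, hxy, hne⟩ : ∃ x ∈ Icc 0 (1 - u), ∃ y ∈ Icc 0 (1 - u), f x = f y ∧ x ≠ y := by
    unfold InjOn at hninj
    push Not at hninj
    obtain ⟨x, hx, y, hy, h1, h2⟩ := hninj
    exact ⟨x, hx, y, hy, h1, h2⟩
  wlog hlt : x < y generalizing x y
  · exact this y hy x hx hxy.symm hne.symm (lt_of_le_of_ne (not_lt.1 hlt) hne.symm)
  obtain ⟨c, hc, hce⟩ := exists_isLocalExtr_Ioo hlt h.cont.continuousOn hxy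
  have hc0 : 0 < c := lt_of_le_of_lt hx.1 hc.1
  have hc1 : c < 1 - u := lt_of_lt_of_le hc.2 hy.2
  have h2 : IsLocalExtr f (c + u) := by
    have hev : f =ᶠ[𝓝 (c + u)] (fun x => f (x - u)) := by
      have : Ioo (c + u - c) (1 : ℝ) ∈ 𝓝 (c + u) := Ioo_mem_nhds (by linarith) (by linarith)
      filter_upwards [this] with x hx
      have := hp (x - u) (by linarith [hx.1]) (by linarith [hx.2])
      rw [← this]; congr 1; ring
    have h3 : IsLocalExtr (fun x => f (x - u)) (c + u) := by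
      have ht : Tendsto (fun x => x - u) (𝓝 (c + u)) (𝓝 c) := by
        have : Continuous (fun x : ℝ => x - u) := by fun_prop
        have h4 := this.tendsto (c + u)
        simpa using h4
      rcases hce with h4 | h4
      · left
        have h5 : ∀ᶠ x in 𝓝 (c + u), f c ≤ f (x - u) := ht.eventually h4
        filter_upwards [h5] with x hx
        simpa using hx
      · right
        have h5 : ∀ᶠ x in 𝓝 (c + u), f (x - u) ≤ f c := ht.eventually h4
        filter_upwards [h5] with x hx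
        simpa using hx
    have hval : f (c + u) = f (c + u - u) := hev.self_of_nhds
    rcases h3 with h4 | h4
    · left
      filter_upwards [h4, hev] with x hx1 hx2
      rw [hx2, hval]; exact hx1
    · right
      filter_upwards [h4, hev] with x hx1 hx2
      rw [hx2, hval]; exact hx1
  refine h.extr c ⟨hc0.le, by linarith⟩ (c + u) ⟨by linarith, by linarith⟩ (by linarith)
    (hce.on _) (h2.on _) ?_
  exact (hp c hc0.le hc1.le).symm

lemma Generic.no_sign {f : ℝ → ℝ} (h : Generic f) {s r ε : ℝ} (hs : 0 ≤ s) (hsr : s ≤ r)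
    (hr : r ≤ 1) (hf : f s = f r) (hε : 0 < ε)
    (hp : ∀ x y, 0 ≤ x → y ≤ 1 → x < y → |y - x - (r - s)| < ε → f x ≤ f y) : False := by
  rcases hsr.eq_or_lt with h0 | h0
  · subst h0
    have hm : 0 < min (ε / 2) 1 := lt_min (by linarith) one_pos
    refine h.mono 0 (min (ε / 2) 1) le_rfl hm (min_le_right _ _) ?_
    intro x hx y hy hxy
    rcases hxy.eq_or_lt with h1 | h1
    · rw [h1]
    · refine hp x y hx.1 (hy.2.trans (min_le_right _ _)) h1 ?_
      rw [sub_self, sub_zero, abs_of_pos (by linarith)]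
      have := hy.2.trans (min_le_left _ _)
      linarith [hx.1]
  · refine h.extr s ⟨hs, by linarith⟩ r ⟨by linarith, hr⟩ h0 (Or.inr ?_) (Or.inl ?_) hf
    · -- local max at s
      have hd : 0 < min ε (r - s) := lt_min hε (by linarith)
      have : Ioo (s - min ε (r - s)) (s + min ε (r - s)) ∈ 𝓝[Icc 0 1] s :=
        mem_nhdsWithin_of_mem_nhds (Ioo_mem_nhds (by linarith) (by linarith))
      filter_upwards [this, self_mem_nhdsWithin] with x hx hx2
      rw [hf]
      have e1 := min_le_left ε (r - s)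
      have e2 := min_le_right ε (r - s)
      refine hp x r hx2.1 hr (by linarith [hx.2]) ?_
      rw [abs_lt]
      constructor <;> linarith [hx.1, hx.2]
    · have hd : 0 < min ε (r - s) := lt_min hε (by linarith)
      have : Ioo (r - min ε (r - s)) (r + min ε (r - s)) ∈ 𝓝[Icc 0 1] r :=
        mem_nhdsWithin_of_mem_nhds (Ioo_mem_nhds (by linarith) (by linarith))
      filter_upwards [this, self_mem_nhdsWithin] with x hx hx2
      rw [← hf]
      have e1 := min_le_left ε (r - s)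
      have e2 := min_le_right ε (r - s)
      refine hp s x hs hx2.2 (by linarith [hx.1]) ?_
      rw [abs_lt]
      constructor <;> linarith [hx.1, hx.2]

/-- every span is a limit of lengths with strict sign change -/
theorem Generic.subset_closure {f : ℝ → ℝ} (h : Generic f) : SpR f ⊆ closure (SC f) := by
  rintro u ⟨s, r, hs, hsr, hr, hf, hu⟩
  by_contra hcl
  have hu1 : u < 1 := by
    by_contra hge
    have h1 : s = 0 := by linarith
    have h2 : r = 1 := by linarith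
    exact h.ends (by rw [← h1, ← h2]; exact hf)
  have hu0 : 0 ≤ u := by linarith
  rw [Metric.mem_closure_iff] at hcl
  push Not at hcl
  obtain ⟨ε₀, hε₀, hball⟩ := hcl
  obtain ⟨ε, hε, hεε, hε1⟩ : ∃ ε : ℝ, 0 < ε ∧ ε ≤ ε₀ ∧ u + ε ≤ 1 :=
    ⟨min ε₀ (1 - u), lt_min hε₀ (by linarith), min_le_left _ _, by linarith [min_le_right ε₀ (1 - u)]⟩
  have hJ : ∀ v ∈ Ioo (max 0 (u - ε)) (u + ε), v ∉ SC f := by
    intro v hv hvS
    have h1 := hball v hvS
    rw [Real.dist_eq] at h1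
    have h2 : u - ε < v := lt_of_le_of_lt (le_max_right _ _) hv.1
    have h3 : |u - v| < ε := by rw [abs_lt]; constructor <;> linarith [hv.2]
    linarith
  set Ap : Set ℝ := {v | ∀ θ ∈ Icc (0 : ℝ) 1, 0 ≤ gD f v θ} with hAp
  set Am : Set ℝ := {v | ∀ θ ∈ Icc (0 : ℝ) 1, gD f v θ ≤ 0} with hAm
  have hcp : IsClosed Ap := by
    have : Ap = ⋂ θ ∈ Icc (0 : ℝ) 1, {v | 0 ≤ gD f v θ} := by
      ext v; simp [hAp]
    rw [this]
    exact isClosed_biInter fun θ _ => isClosed_le continuous_const (continuous_gD_left h.cont θ)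
  have hcm : IsClosed Am := by
    have : Am = ⋂ θ ∈ Icc (0 : ℝ) 1, {v | gD f v θ ≤ 0} := by
      ext v; simp [hAm]
    rw [this]
    exact isClosed_biInter fun θ _ => isClosed_le (continuous_gD_left h.cont θ) continuous_const
  have hJr : ∀ v ∈ Ioo (max 0 (u - ε)) (u + ε), 0 < v ∧ v < 1 := fun v hv =>
    ⟨lt_of_le_of_lt (le_max_left _ _) hv.1, by linarith [hv.2]⟩
  have hcov : Ioo (max 0 (u - ε)) (u + ε) ⊆ Ap ∪ Am := by
    intro v hv
    by_contra hno
    rw [mem_union, not_or] at hno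
    obtain ⟨hno1, hno2⟩ := hno
    simp only [hAp, hAm, mem_ofPred_eq, not_forall, not_le] at hno1 hno2
    obtain ⟨θ, hθ, hθ'⟩ := hno1
    obtain ⟨η, hη, hη'⟩ := hno2
    exact hJ v hv ⟨(hJr v hv).1, (hJr v hv).2, ⟨θ, hθ, hθ'⟩, ⟨η, hη, hη'⟩⟩
  -- conversion between parametrisations
  have hconv : ∀ x y : ℝ, 0 ≤ x → y ≤ 1 → 0 < y - x → y - x < 1 →
      ∃ θ ∈ Icc (0 : ℝ) 1, gD f (y - x) θ = f y - f x := by
    intro x y hx hy h1 h2
    have h3 : 0 < 1 - (y - x) := by linarith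
    refine ⟨x / (1 - (y - x)), ⟨div_nonneg hx h3.le, (div_le_one h3).2 (by linarith)⟩, ?_⟩
    unfold gD
    rw [div_mul_cancel₀ _ h3.ne']
    congr 2
    ring
  have hone : ∀ g : ℝ → ℝ, Generic g → g s = g r →
      (∀ v ∈ Ioo (max 0 (u - ε)) (u + ε), ∀ x y, 0 ≤ x → y ≤ 1 → y - x = v → g x ≤ g y) →
        False := by
    intro g hg hgf hgm
    refine hg.no_sign hs hsr hr hgf hε ?_
    intro x y hx hy hxy habs
    rw [abs_lt] at habs
    refine hgm (y - x) ⟨max_lt (by linarith) (by linarith [habs.1]), by linarith [habs.2]⟩ x y hx hy rfl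
  rcases (Ioo (max 0 (u - ε)) (u + ε) ∩ Ap).eq_empty_or_nonempty with he | hne
  · -- all in Am
    have hall : ∀ v ∈ Ioo (max 0 (u - ε)) (u + ε), v ∈ Am := by
      intro v hv
      rcases hcov hv with h1 | h1
      · exact absurd (show v ∈ Ioo (max 0 (u - ε)) (u + ε) ∩ Ap from ⟨hv, h1⟩) (by rw [he]; simp)
      · exact h1
    refine hone (fun x => -f x) h.neg (by simp [hf]) ?_
    intro v hv x y hx hy hxy
    obtain ⟨θ, hθ, hθ'⟩ := hconv x y hx hy (by rw [hxy]; exact (hJr v hv).1)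
      (by rw [hxy]; exact (hJr v hv).2)
    have := hall v hv θ hθ
    rw [← hxy, hθ'] at this
    simp only [neg_le_neg_iff]
    linarith
  rcases (Ioo (max 0 (u - ε)) (u + ε) ∩ Am).eq_empty_or_nonempty with he | hne'
  · have hall : ∀ v ∈ Ioo (max 0 (u - ε)) (u + ε), v ∈ Ap := by
      intro v hv
      rcases hcov hv with h1 | h1
      · exact h1
      · exact absurd (show v ∈ Ioo (max 0 (u - ε)) (u + ε) ∩ Am from ⟨hv, h1⟩) (by rw [he]; simp)
    refine hone f h hf ?_
    intro v hv x y hx hy hxy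
    obtain ⟨θ, hθ, hθ'⟩ := hconv x y hx hy (by rw [hxy]; exact (hJr v hv).1)
      (by rw [hxy]; exact (hJr v hv).2)
    have := hall v hv θ hθ
    rw [← hxy, hθ'] at this
    linarith
  · obtain ⟨v, hv, hv1, hv2⟩ := (isPreconnected_closed_iff.1 isPreconnected_Ioo) Ap Am hcp hcm hcov
      hne hne'
    refine h.no_period (hJr v hv).1 (hJr v hv).2 ?_
    intro t ht0 ht1
    obtain ⟨θ, hθ, hθ'⟩ := hconv t (t + v) ht0 (by linarith) (by linarith [(hJr v hv).1])
      (by linarith [(hJr v hv).2])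
    have e : t + v - t = v := by ring
    rw [e] at hθ'
    have h1 := hv1 θ hθ
    have h2 := hv2 θ hθ
    rw [hθ'] at h1 h2
    linarith

theorem Generic.closure_interior {f : ℝ → ℝ} (h : Generic f) :
    SpR f = closure (interior (SpR f)) := by
  apply Set.Subset.antisymm
  · refine h.subset_closure.trans (closure_mono ?_)
    exact interior_maximal (SC_subset h.cont) (isOpen_SC h.cont)
  · exact (isCompact_SpR h.cont).isClosed.closure_interior_subset

end Pool.Agent.V11330.Span
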